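import Mathlib

/-!
States, pure states, unique state extensions and simplicity for (not necessarily unital)
C*-algebras.
-/

set_option autoImplicit false

noncomputable section

namespace Pool.Agent.R296.PSE

section Defs

variable {A : Type*} [NonUnitalCStarAlgebra A]

/-- The functional `φ` is positive: `φ(a* a) ≥ 0` for all `a`. -/
def IsPositive (φ : A →L[ℂ] ℂ) : Prop :=
  ∀ a : A, 0 ≤ (φ (star a * a)).re ∧ (φ (star a * a)).im = 0

/-- A state: a positive linear functional of norm `1`. -/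
def IsState (φ : A →L[ℂ] ℂ) : Prop := IsPositive φ ∧ ‖φ‖ = 1

/-- A pure state: an extreme point of the set of states. -/
def IsPureState (φ : A →L[ℂ] ℂ) : Prop :=
  IsState φ ∧ ∀ ρ σ : A →L[ℂ] ℂ, IsState ρ → IsState σ → ∀ t : ℝ, 0 < t → t < 1 →
    (∀ a, φ a = t * ρ a + (1 - t) * σ a) → ρ = φ ∧ σ = φ

/-- `A` is simple: it is nonzero and its only closed two-sided ideals are `{0}` and `A`. -/
def IsSimpleCStarAlgebra (A : Type*) [NonUnitalCStarAlgebra A] : Prop :=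
  Nontrivial A ∧ ∀ I : Submodule ℂ A, IsClosed (I : Set A) →
    (∀ a : A, ∀ x ∈ I, a * x ∈ I ∧ x * a ∈ I) → I = ⊥ ∨ I = ⊤

/-- Let `A` be embedded in `B` by `ι`. `φ'` is the unique state on `B` which extends `φ`. -/
def IsUniqueStateExtension {B : Type*} [NonUnitalCStarAlgebra B] (ι : A →⋆ₙₐ[ℂ] B)
    (φ : A →L[ℂ] ℂ) (φ' : B →L[ℂ] ℂ) : Prop :=
  IsState φ' ∧ (∀ a, φ' (ι a) = φ a) ∧
    ∀ ρ : B →L[ℂ] ℂ, IsState ρ → (∀ a, ρ (ι a) = φ a) → ρ = φ'

end Defs

end Pool.Agent.R296.PSE
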