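import Pool.Agent.R296.WeylStates

/-!
No C*-algebra containing `AA` makes the two pure states `phi`, `psi` equivalent with unique
extensions.
-/

set_option autoImplicit false

noncomputable section

namespace Pool.Agent.R296.Weyl

open scoped ENNReal
open Filter Topology PSE

/-- the projection `(1 + u) / 2` -/
def hp (u : AA) : AA := (1 / 2 : ℂ) • (1 + u)

theorem hp_star {u : AA} (hs : star u = u) : star (hp u) = hp u := by
  rw [hp, star_smul, star_add, star_one, hs]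
  congr 1
  change (starRingEnd ℂ) (1 / 2) = 1 / 2
  rw [map_div₀, map_one, map_ofNat]

theorem hp_sq {u : AA} (hu : u * u = 1) : hp u * hp u = hp u := by
  rw [hp, smul_mul_smul_comm, mul_add, mul_one, add_mul, one_mul, hu, add_comm u (1 : AA),
    ← two_smul ℂ (1 + u), smul_smul]
  norm_num

theorem norm_hp_le {u : AA} (hs : star u = u) (hu : u * u = 1) : ‖hp u‖ ≤ 1 := by
  have h1 := CStarRing.norm_star_mul_self (E := AA) (x := hp u)
  rw [hp_star hs, hp_sq hu] at h1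
  by_contra h
  push Not at h
  nlinarith

variable {B : Type*} [NonUnitalCStarAlgebra B] (ι : AA →⋆ₙₐ[ℂ] B)

theorem norm_ι_le (a : AA) : ‖ι a‖ ≤ ‖a‖ := NonUnitalStarAlgHom.norm_apply_le ι a

theorem re_le {ρ : B →L[ℂ] ℂ} (hn : ‖ρ‖ ≤ 1) {a : AA} (ha : ‖a‖ ≤ 1) : (ρ (ι a)).re ≤ 1 := by
  refine (Complex.re_le_norm _).trans ((ρ.le_opNorm _).trans ?_)
  exact mul_le_one₀ hn (norm_nonneg _) ((norm_ι_le ι a).trans ha)

/-- If `ρ((1 + u) / 2) ≥ 1` then `ρ(1) = ρ(u) = 1`. -/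
theorem hp_one {ρ : B →L[ℂ] ℂ} (hρ : IsPositive ρ) (hn : ‖ρ‖ ≤ 1) {u : AA} (hs : star u = u)
    (hu : u * u = 1) (h : 1 ≤ (ρ (ι (hp u))).re) : ρ (ι 1) = 1 ∧ ρ (ι u) = 1 := by
  have hs' : star (-u) = -u := by rw [star_neg, hs]
  have hu' : -u * -u = 1 := by rw [neg_mul_neg, hu]
  have e1 : hp u + hp (-u) = 1 := by
    rw [hp, hp, ← smul_add]
    have : (1 + u + (1 + -u) : AA) = (2 : ℂ) • 1 := by
      rw [two_smul]
      abel
    rw [this, smul_smul]
    norm_num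
  have e2 : hp u - hp (-u) = u := by
    rw [hp, hp, ← smul_sub]
    have : (1 + u - (1 + -u) : AA) = (2 : ℂ) • u := by
      rw [two_smul]
      abel
    rw [this, smul_smul]
    norm_num
  have p1 := hρ (ι (hp u))
  rw [← map_star, ← map_mul, hp_star hs, hp_sq hu] at p1
  have p2 := hρ (ι (hp (-u)))
  rw [← map_star, ← map_mul, hp_star hs', hp_sq hu'] at p2
  have q1 := re_le ι hn (norm_hp_le hs hu)
  have q2 : (ρ (ι 1)).re ≤ 1 := re_le ι hn norm_one_AA.le
  have e3 : ρ (ι 1) = ρ (ι (hp u)) + ρ (ι (hp (-u))) := by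
    rw [← map_add, ← map_add, e1]
  have e4 : ρ (ι u) = ρ (ι (hp u)) - ρ (ι (hp (-u))) := by
    rw [← map_sub, ← map_sub, e2]
  have e5 : ρ (ι (hp u)) = 1 := Complex.ext (by simp; linarith) (by simp; exact p1.2)
  have e6 : ρ (ι (hp (-u))) = 0 := by
    rw [e3, Complex.add_re] at q2
    exact Complex.ext (by simp; linarith [p2.1]) (by simp; exact p2.2)
  rw [e3, e4, e5, e6]
  norm_num

/-- restriction of a functional to `AA` -/
def res (ρ : B →L[ℂ] ℂ) : AA →L[ℂ] ℂ :=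
  LinearMap.mkContinuous
    { toFun := fun a => ρ (ι a)
      map_add' := fun a b => by rw [map_add, map_add]
      map_smul' := fun c a => by rw [map_smul, map_smul, RingHom.id_apply] } ‖ρ‖
    (fun a => (ρ.le_opNorm _).trans (mul_le_mul_of_nonneg_left (norm_ι_le ι a) (norm_nonneg _)))

theorem res_apply (ρ : B →L[ℂ] ℂ) (a : AA) : res ι ρ a = ρ (ι a) := rfl

theorem res_pos {ρ : B →L[ℂ] ℂ} (hρ : IsPositive ρ) : IsPositive (res ι ρ) := by
  intro a
  rw [res_apply, map_mul, map_star]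
  exact hρ (ι a)

theorem isState_B {ρ : B →L[ℂ] ℂ} (hρ : IsPositive ρ) (hn : ‖ρ‖ ≤ 1) (h1 : ρ (ι 1) = 1) :
    IsState ρ := by
  refine ⟨hρ, le_antisymm hn ?_⟩
  have h2 := ρ.le_opNorm (ι 1)
  rw [h1, norm_one] at h2
  have h3 : ‖ι 1‖ ≤ 1 := (norm_ι_le ι 1).trans norm_one_AA.le
  nlinarith [norm_nonneg ρ, norm_nonneg (ι 1)]

variable {ι}

/-- `psi'` is determined by its values at `(1 + op 0 f) / 2` -/
theorem psi_det {ψ' : B →L[ℂ] ℂ} (hψ : IsUniqueStateExtension ι psi ψ') {ρ : B →L[ℂ] ℂ}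
    (hρ : IsPositive ρ) (hn : ‖ρ‖ ≤ 1) (h : ∀ f, 1 ≤ (ρ (ι (hp (oA 0 f)))).re) : ρ = ψ' := by
  have h1 := fun f => hp_one ι hρ hn (star_oA_right f) (oA_sq_right f) (h f)
  have h2 : res ι ρ = psi := psi_unique (res_pos ι hρ) fun f => (h1 f).2
  exact hψ.2.2 ρ (isState_B ι hρ hn (h1 0).1) fun a => by rw [← h2, res_apply]

/-- `phi'` is determined by its values at `(1 + op (single n 1) 0) / 2` -/
theorem phi_det {φ' : B →L[ℂ] ℂ} (hφ : IsUniqueStateExtension ι phi φ') {ρ : B →L[ℂ] ℂ}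
    (hρ : IsPositive ρ) (hn : ‖ρ‖ ≤ 1)
    (h : ∀ n : ℕ, 1 ≤ (ρ (ι (hp (oA (Finsupp.single n 1) 0)))).re) : ρ = φ' := by
  have h1 := fun n : ℕ => hp_one ι hρ hn (star_oA_left (Finsupp.single n 1))
    (oA_sq_left (Finsupp.single n 1)) (h n)
  have h2 : res ι ρ = phi := phi_unique (res_pos ι hρ) (h1 0).1 fun n => (h1 n).2
  exact hφ.2.2 ρ (isState_B ι hρ hn (h1 0).1) fun a => by rw [← h2, res_apply]

/-- there are many characters -/
theorem exists_char (S : ℕ → W) : ∃ g : W, g ∉ Submodule.span (ZMod 2) (Set.range S) := by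
  have hc : Countable (Submodule.span (ZMod 2) (Set.range S)) := inferInstance
  obtain ⟨w, hw⟩ : ∃ w : ℕ → Submodule.span (ZMod 2) (Set.range S), Function.Surjective w :=
    exists_surjective_nat _
  let g : W := Finsupp.linearCombination (ZMod 2)
    (fun n : ℕ => (w n : W) (Finsupp.single n 1) + 1)
  refine ⟨g, fun hg => ?_⟩
  obtain ⟨n, hn⟩ := hw ⟨g, hg⟩
  have h1 : g (Finsupp.single n 1) = (w n : W) (Finsupp.single n 1) + 1 := by
    change Finsupp.linearCombination (ZMod 2) _ (Finsupp.single n 1) = _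
    rw [Finsupp.linearCombination_single, one_smul]
  rw [hn] at h1
  change g (Finsupp.single n 1) = g (Finsupp.single n 1) + 1 at h1
  have h2 : ∀ a : ZMod 2, a ≠ a + 1 := by decide
  exact h2 _ h1

theorem main_no {φ' ψ' : B →L[ℂ] ℂ} (hφ : IsUniqueStateExtension ι phi φ')
    (hψ : IsUniqueStateExtension ι psi ψ') (α : B ≃⋆ₐ[ℂ] B) (hα : ∀ b, φ' b = ψ' (α b)) :
    False := by
  -- the element `b`
  set E : ℕ → B := fun n => ι (hp (oA (Finsupp.single n 1) 0)) with hE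
  have hEn : ∀ n, ‖E n‖ ≤ 1 := fun n =>
    (norm_ι_le ι _).trans (norm_hp_le (star_oA_left _) (oA_sq_left _))
  have hsum : Summable (fun n : ℕ => ((1 / 2 : ℝ) ^ (n + 1) : ℝ) • E n) := by
    refine Summable.of_norm_bounded (g := fun n : ℕ => (1 / 2 : ℝ) ^ (n + 1)) ?_ fun n => ?_
    · exact (summable_nat_add_iff 1).2 summable_geometric_two
    · rw [norm_smul, Real.norm_of_nonneg (by positivity)]
      exact mul_le_of_le_one_right (by positivity) (hEn n)
  have hgeo : HasSum (fun n : ℕ => (1 / 2 : ℝ) ^ (n + 1)) 1 := by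
    have h1 := hasSum_geometric_two.mul_left (1 / 2 : ℝ)
    have h2 : (fun n : ℕ => (1 / 2 : ℝ) * (1 / 2) ^ n) = fun n : ℕ => (1 / 2 : ℝ) ^ (n + 1) := by
      funext n
      rw [pow_succ']
    rw [h2] at h1
    norm_num at h1
    simpa using h1
  obtain ⟨b, hb⟩ := hsum
  have hρb : ∀ ρ : B →L[ℂ] ℂ, HasSum (fun n : ℕ => (1 / 2 : ℝ) ^ (n + 1) * (ρ (E n)).re)
      (ρ b).re := by
    intro ρ
    have h1 := (Complex.reCLM.hasSum (ρ.hasSum hb))
    have h2 : (fun n : ℕ => Complex.reCLM (ρ (((1 / 2 : ℝ) ^ (n + 1) : ℝ) • E n)))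
        = fun n : ℕ => (1 / 2 : ℝ) ^ (n + 1) * (ρ (E n)).re := by
      funext n
      rw [Complex.reCLM_apply, ← Complex.coe_smul, map_smul, smul_eq_mul, Complex.re_ofReal_mul]
    rw [h2] at h1
    exact h1
  -- `b` determines `φ'`
  have hdetb : ∀ ρ : B →L[ℂ] ℂ, IsPositive ρ → ‖ρ‖ ≤ 1 → 1 ≤ (ρ b).re → ρ = φ' := by
    intro ρ hρ hn h1
    apply phi_det hφ hρ hn
    intro m
    have h2 : HasSum (fun n : ℕ => (1 / 2 : ℝ) ^ (n + 1) - (1 / 2 : ℝ) ^ (n + 1) * (ρ (E n)).re)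
        (1 - (ρ b).re) := hgeo.sub (hρb ρ)
    have h3 : ∀ n : ℕ, 0 ≤ (1 / 2 : ℝ) ^ (n + 1) - (1 / 2 : ℝ) ^ (n + 1) * (ρ (E n)).re := by
      intro n
      have h4 : (ρ (E n)).re ≤ 1 := re_le ι hn (norm_hp_le (star_oA_left _) (oA_sq_left _))
      have h5 : (0 : ℝ) < (1 / 2 : ℝ) ^ (n + 1) := by positivity
      nlinarith
    have h4 := le_hasSum h2 m fun n _ => h3 n
    have h5 : (0 : ℝ) < (1 / 2 : ℝ) ^ (m + 1) := by positivity
    have h6 : (1 / 2 : ℝ) ^ (m + 1) * (1 - (ρ (E m)).re) ≤ 0 := by linarith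
    have h7 : 1 - (ρ (E m)).re ≤ 0 := by
      by_contra h8
      push Not at h8
      have := mul_pos h5 h8
      linarith
    change 1 ≤ (ρ (E m)).re
    linarith
  -- the element `c`
  set c : B := α b with hc
  have hψc : (ψ' c).re = 1 := by
    rw [hc, ← hα]
    have h1 := hρb φ'
    have h2 : (fun n : ℕ => (1 / 2 : ℝ) ^ (n + 1) * (φ' (E n)).re)
        = fun n : ℕ => (1 / 2 : ℝ) ^ (n + 1) := by
      funext n
      have h3 : φ' (E n) = 1 := by
        change φ' (ι (hp (oA (Finsupp.single n 1) 0))) = 1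
        rw [hφ.2.1, hp, map_smul, map_add, phi_oA, phi_one, smul_eq_mul]
        norm_num
      rw [h3, Complex.one_re, mul_one]
    rw [h2] at h1
    exact h1.unique hgeo
  have hdetc : ∀ ρ : B →L[ℂ] ℂ, IsPositive ρ → ‖ρ‖ ≤ 1 → 1 ≤ (ρ c).re → ρ = ψ' := by
    intro ρ hρ hn h1
    have hαn : ∀ x : B, ‖α x‖ ≤ ‖x‖ := fun x => NonUnitalStarAlgHom.norm_apply_le α x
    let ρα : B →L[ℂ] ℂ := LinearMap.mkContinuous
      { toFun := fun x => ρ (α x)
        map_add' := fun x y => by rw [map_add, map_add]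
        map_smul' := fun k x => by rw [map_smul, map_smul, RingHom.id_apply] } 1
      (fun x => (ρ.le_opNorm _).trans (mul_le_mul hn (hαn x) (norm_nonneg _) zero_le_one))
    have e : ∀ x, ρα x = ρ (α x) := fun x => rfl
    have h2 : ρα = φ' := by
      refine hdetb ρα (fun x => ?_) (LinearMap.mkContinuous_norm_le _ zero_le_one _) h1
      rw [e, map_mul, map_star]
      exact hρ (α x)
    ext x
    have h3 : ρ x = ρα (α.symm x) := by
      rw [e]
      congr 1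
      exact (α.apply_symm_apply x).symm
    rw [h3, h2, hα]
    congr 1
    exact α.apply_symm_apply x
  -- finite sets of characters
  have hfin : ∀ n : ℕ, ∃ F : Finset W, ∀ ρ : B →L[ℂ] ℂ, IsPositive ρ → ‖ρ‖ ≤ 1 →
      (ρ c).re ≤ 1 - 1 / ((n : ℝ) + 1) → ∃ f ∈ F, (ρ (ι (hp (oA 0 f)))).re < 1 := by
    intro n
    refine exists_finset (fun f => ι (hp (oA 0 f))) c (1 / ((n : ℝ) + 1)) ?_
    intro ρ hρ hn h1
    by_contra h2
    push Not at h2
    have h3 := psi_det hψ hρ hn h2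
    rw [h3, hψc] at h1
    have : (0 : ℝ) < 1 / ((n : ℝ) + 1) := by positivity
    linarith
  choose F hF using hfin
  -- a countable family of characters
  obtain ⟨S, hS⟩ : ∃ S : ℕ → W, (⋃ n, (F n : Set W)) ∪ {0} = Set.range S := by
    refine Set.Countable.exists_eq_range ?_ ⟨0, Or.inr rfl⟩
    exact (Set.countable_iUnion fun n => (F n).countable_toSet).union (Set.countable_singleton 0)
  obtain ⟨g, hg⟩ := exists_char S
  have hy : ∀ n : ℕ, ∃ y : Γ, (∀ i < n, S i y = 0) ∧ g y = 1 := by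
    intro n
    by_contra hcon
    push Not at hcon
    apply hg
    have h1 : g ∈ Submodule.span (ZMod 2) (Set.range fun i : Fin n => S i) := by
      apply mem_span_of_iInf_ker_le_ker
      intro x hx
      rw [Submodule.mem_iInf] at hx
      rw [LinearMap.mem_ker]
      by_contra h0
      have h2 : ∀ a : ZMod 2, a ≠ 0 → a = 1 := by decide
      exact hcon x (fun i hi => hx ⟨i, hi⟩) (h2 _ h0)
    refine Submodule.span_mono ?_ h1
    rintro _ ⟨i, rfl⟩
    exact ⟨i, rfl⟩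
  choose y hy1 hy2 using hy
  -- states on `B`
  have hT : ∀ n, ‖ι (oA (y n) 0)‖ ≤ 1 := fun n => (norm_ι_le ι _).trans (norm_op_le _ _)
  let ω : ℕ → (B →L[ℂ] ℂ) := fun n => LinearMap.mkContinuous
    { toFun := fun x => ψ' (ι (oA (y n) 0) * x * ι (oA (y n) 0))
      map_add' := fun x z => by rw [mul_add, add_mul, map_add]
      map_smul' := fun k x => by rw [mul_smul_comm, smul_mul_assoc, map_smul, RingHom.id_apply] } 1
    (fun x => by
      refine (ψ'.le_opNorm _).trans ?_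
      rw [hψ.1.2, one_mul, one_mul]
      calc ‖ι (oA (y n) 0) * x * ι (oA (y n) 0)‖
          ≤ ‖ι (oA (y n) 0) * x‖ * ‖ι (oA (y n) 0)‖ := norm_mul_le _ _
        _ ≤ (‖ι (oA (y n) 0)‖ * ‖x‖) * ‖ι (oA (y n) 0)‖ :=
          mul_le_mul_of_nonneg_right (norm_mul_le _ _) (norm_nonneg _)
        _ ≤ (1 * ‖x‖) * 1 := by
          refine mul_le_mul (mul_le_mul_of_nonneg_right (hT n) (norm_nonneg _)) (hT n)
            (norm_nonneg _) (by positivity)
        _ = ‖x‖ := by ring)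
  have hω : ∀ n x, ω n x = ψ' (ι (oA (y n) 0) * x * ι (oA (y n) 0)) := fun n x => rfl
  have hωpos : ∀ n, IsPositive (ω n) := by
    intro n x
    rw [hω]
    have e : ι (oA (y n) 0) * (star x * x) * ι (oA (y n) 0)
        = star (x * ι (oA (y n) 0)) * (x * ι (oA (y n) 0)) := by
      rw [star_mul, ← map_star, star_oA_left]
      simp only [mul_assoc]
    rw [e]
    exact hψ.1.1 _
  have hωval : ∀ n (f : W), ω n (ι (oA 0 f)) = sg (f (y n)) := by
    intro n f
    rw [hω, ← map_mul, ← map_mul, hψ.2.1]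
    have e : oA (y n) 0 * oA 0 f * oA (y n) 0 = sg (f (y n)) • oA 0 f := by
      have e1 : oA (y n) 0 * oA 0 f = sg (f (y n)) • (oA 0 f * oA (y n) 0) := by
        rw [← oA_eq, oA_mul, add_zero, zero_add]
      rw [e1, smul_mul_assoc, mul_assoc, oA_sq_left, mul_one]
    rw [e, map_smul, psi_oA, smul_eq_mul, mul_one]
  obtain ⟨ρ, h1, h2, h3⟩ := exists_limit ω hωpos
    (fun n => LinearMap.mkContinuous_norm_le _ zero_le_one _)
  have hρS : ∀ i, ρ (ι (oA 0 (S i))) = 1 := by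
    intro i
    refine h3 _ 1 ?_
    filter_upwards [eventually_gt_atTop i] with n hn
    rw [hωval, hy1 n i hn, sg_zero]
  have hρ1 : ρ (ι 1) = 1 := by
    obtain ⟨i, hi⟩ : (0 : W) ∈ Set.range S := by
      rw [← hS]
      exact Or.inr rfl
    have h4 := hρS i
    rwa [hi, oA_zero] at h4
  have hρg : ρ (ι (oA 0 g)) = -1 := by
    refine h3 _ (-1) (Eventually.of_forall fun n => ?_)
    rw [hωval, hy2 n, sg_one]
  have hρc : 1 ≤ (ρ c).re := by
    by_contra h4
    push Not at h4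
    obtain ⟨n, hn⟩ := exists_nat_one_div_lt (sub_pos.2 h4)
    obtain ⟨f, hf, hf2⟩ := hF n ρ h1 h2 (by linarith)
    obtain ⟨i, hi⟩ : f ∈ Set.range S := by
      rw [← hS]
      exact Or.inl (Set.mem_iUnion.2 ⟨n, hf⟩)
    rw [hp, map_smul, map_smul, map_add, map_add, hρ1, ← hi, hρS i] at hf2
    norm_num at hf2
  have h4 := hdetc ρ h1 h2 hρc
  rw [h4, hψ.2.1, psi_oA] at hρg
  norm_num at hρg

/-- `phi` is pure -/
theorem convex_one {z w : ℂ} (hz : ‖z‖ ≤ 1) (hw : ‖w‖ ≤ 1) {t : ℝ} (h0 : 0 < t) (h1 : t < 1)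
    (h : (1 : ℂ) = t * z + (1 - t) * w) : z = 1 ∧ w = 1 := by
  have hz1 : z.re ≤ 1 := (Complex.re_le_norm _).trans hz
  have hw1 : w.re ≤ 1 := (Complex.re_le_norm _).trans hw
  have hre : (1 : ℝ) = t * z.re + (1 - t) * w.re := by
    have := congrArg Complex.re h
    simpa using this
  have hz2 : z.re = 1 := by nlinarith
  have hw2 : w.re = 1 := by nlinarith
  have key : ∀ v : ℂ, ‖v‖ ≤ 1 → v.re = 1 → v = 1 := by
    intro v hv hv1
    have h2 : ‖v‖ ^ 2 ≤ 1 := by nlinarith [norm_nonneg v]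
    rw [← Complex.normSq_eq_norm_sq, Complex.normSq_apply, hv1] at h2
    have h3 : v.im = 0 := by nlinarith
    exact Complex.ext (by simpa using hv1) (by simpa using h3)
  exact ⟨key z hz hz2, key w hw hw2⟩

theorem state_norm_le {ρ : AA →L[ℂ] ℂ} (hρ : IsState ρ) {a : AA} (ha : ‖a‖ ≤ 1) : ‖ρ a‖ ≤ 1 := by
  refine (ρ.le_opNorm a).trans ?_
  rw [hρ.2, one_mul]
  exact ha

theorem psi_pure : IsPureState psi := by
  refine ⟨psi_state, fun ρ σ hρ hσ t h0 h1 h => ?_⟩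
  have h2 : ∀ f, ρ (oA 0 f) = 1 ∧ σ (oA 0 f) = 1 := by
    intro f
    refine convex_one (state_norm_le hρ (norm_op_le _ _)) (state_norm_le hσ (norm_op_le _ _))
      h0 h1 ?_
    rw [← h, psi_oA]
  exact ⟨psi_unique hρ.1 fun f => (h2 f).1, psi_unique hσ.1 fun f => (h2 f).2⟩

theorem phi_pure : IsPureState phi := by
  refine ⟨phi_state, fun ρ σ hρ hσ t h0 h1 h => ?_⟩
  have h2 : ∀ n : ℕ, ρ (oA (Finsupp.single n 1) 0) = 1 ∧ σ (oA (Finsupp.single n 1) 0) = 1 := by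
    intro n
    refine convex_one (state_norm_le hρ (norm_op_le _ _)) (state_norm_le hσ (norm_op_le _ _))
      h0 h1 ?_
    rw [← h, phi_oA]
  have h3 : ρ 1 = 1 ∧ σ 1 = 1 := by
    refine convex_one (state_norm_le hρ norm_one_AA.le) (state_norm_le hσ norm_one_AA.le)
      h0 h1 ?_
    rw [← h, phi_one]
  exact ⟨phi_unique hρ.1 h3.1 fun n => (h2 n).1, phi_unique hσ.1 h3.2 fun n => (h2 n).2⟩

instance : CStarAlgebra AA := StarSubalgebra.cstarAlgebra AA

theorem AA_simple' : IsSimpleCStarAlgebra AA := ⟨⟨0, 1, fun h => by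
  have h1 := norm_one_AA
  rw [← h, norm_zero] at h1
  norm_num at h1⟩, fun I hc hI => AA_simple I hc hI⟩

end Pool.Agent.R296.Weyl
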