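import Pool.Agent.R296.PSEDefs

/-!
Positive functionals on C*-algebras: basic facts, limits, compactness.
-/

set_option autoImplicit false

noncomputable section

namespace Pool.Agent.R296.PSE

open Filter Topology

section Facts

variable {A : Type*} [NonUnitalCStarAlgebra A]

theorem IsPositive.star_mul {φ : A →L[ℂ] ℂ} (h : IsPositive φ) (v a : A) :
    φ (star a * star v) = (starRingEnd ℂ) (φ (v * a)) := by
  have e : ∀ c : ℂ, φ (star (star v + c • a) * (star v + c • a))
      = φ (v * star v) + c * φ (v * a) + (starRingEnd ℂ) c * φ (star a * star v)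
        + (c * (starRingEnd ℂ) c) * φ (star a * a) := by
    intro c
    have e1 : star (star v + c • a) * (star v + c • a)
        = v * star v + c • (v * a) + (star c) • (star a * star v) + (c * star c) • (star a * a) := by
      simp only [star_add, star_star, star_smul, add_mul, mul_add, smul_mul_assoc, mul_smul_comm,
        smul_smul, smul_add]
      abel
    rw [e1, map_add, map_add, map_add, map_smul, map_smul, map_smul, smul_eq_mul, smul_eq_mul,
      smul_eq_mul]
    rfl
  have h1 := (h (star v + (1 : ℂ) • a)).2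
  have h2 := (h (star v + Complex.I • a)).2
  have h3 := (h a).2
  have h4 : (φ (v * star v)).im = 0 := by
    have := (h (star v)).2
    rwa [star_star] at this
  rw [e] at h1 h2
  apply Complex.ext
  · simp at h1 h2 ⊢
    linarith
  · simp at h1 h2 ⊢
    linarith

theorem IsPositive.cs_zero {φ : A →L[ℂ] ℂ} (h : IsPositive φ) {v : A}
    (hv : φ (v * star v) = 0) (a : A) : φ (v * a) = 0 := by
  have e : ∀ c : ℂ, φ (star (star v + c • a) * (star v + c • a))
      = φ (v * star v) + c * φ (v * a) + (starRingEnd ℂ) c * φ (star a * star v)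
        + (c * (starRingEnd ℂ) c) * φ (star a * a) := by
    intro c
    have e1 : star (star v + c • a) * (star v + c • a)
        = v * star v + c • (v * a) + (star c) • (star a * star v) + (c * star c) • (star a * a) := by
      simp only [star_add, star_star, star_smul, add_mul, mul_add, smul_mul_assoc, mul_smul_comm,
        smul_smul, smul_add]
      abel
    rw [e1, map_add, map_add, map_add, map_smul, map_smul, map_smul, smul_eq_mul, smul_eq_mul,
      smul_eq_mul]
    rfl
  by_contra hne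
  set P := φ (v * a) with hP
  set N := (φ (star a * a)).re with hN
  have hN0 : 0 ≤ N := (h a).1
  have hPn : 0 < Complex.normSq P := Complex.normSq_pos.2 hne
  -- take `c = - t conj P`
  have key : ∀ t : ℝ, 0 ≤ -(2 * t * Complex.normSq P) + t ^ 2 * Complex.normSq P * N := by
    intro t
    have h1 := (h (star v + (-(t : ℂ) * (starRingEnd ℂ) P) • a)).1
    rw [e, hv, h.star_mul v a, ← hP] at h1
    have e1 : (0 + -(t : ℂ) * (starRingEnd ℂ) P * P + (starRingEnd ℂ) (-(t : ℂ) * (starRingEnd ℂ) P)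
        * (starRingEnd ℂ) P + -(t : ℂ) * (starRingEnd ℂ) P *
        (starRingEnd ℂ) (-(t : ℂ) * (starRingEnd ℂ) P) * φ (star a * a)).re
        = -(2 * t * Complex.normSq P) + t ^ 2 * Complex.normSq P * N := by
      have e2 : (starRingEnd ℂ) P * P = (Complex.normSq P : ℂ) := by
        rw [mul_comm, Complex.mul_conj]
      have e3 : (starRingEnd ℂ) (-(t : ℂ) * (starRingEnd ℂ) P) = -(t : ℂ) * P := by
        rw [map_mul, map_neg, Complex.conj_ofReal, Complex.conj_conj]
      rw [e3]
      have e4 : (0 + -(t : ℂ) * (starRingEnd ℂ) P * P + -(t : ℂ) * P * (starRingEnd ℂ) P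
          + -(t : ℂ) * (starRingEnd ℂ) P * (-(t : ℂ) * P) * φ (star a * a))
          = -(2 * t) * ((starRingEnd ℂ) P * P) + t ^ 2 * ((starRingEnd ℂ) P * P)
            * φ (star a * a) := by ring
      rw [e4, e2]
      have e5 : (-(2 * (t : ℂ)) * (Complex.normSq P : ℂ) + (t : ℂ) ^ 2 * (Complex.normSq P : ℂ)
          * φ (star a * a)).re = -(2 * t) * Complex.normSq P
            + t ^ 2 * Complex.normSq P * (φ (star a * a)).re := by
        have e6 : (-(2 * (t : ℂ)) * (Complex.normSq P : ℂ)) = ((-(2 * t) * Complex.normSq P : ℝ) : ℂ) := by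
          push_cast
          ring
        have e7 : (t : ℂ) ^ 2 * (Complex.normSq P : ℂ) = ((t ^ 2 * Complex.normSq P : ℝ) : ℂ) := by
          push_cast
          ring
        rw [e6, e7, Complex.add_re, Complex.ofReal_re, Complex.re_ofReal_mul]
      rw [e5]
      ring
    rw [e1] at h1
    exact h1
  have h1 := key (1 / (N + 1))
  have h2 : (0 : ℝ) < N + 1 := by linarith
  have h3 : -(2 * (1 / (N + 1)) * Complex.normSq P) + (1 / (N + 1)) ^ 2 * Complex.normSq P * N
      = (1 / (N + 1)) * Complex.normSq P * (N / (N + 1) - 2) := by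
    field_simp
    ring
  rw [h3] at h1
  have h4 : N / (N + 1) ≤ 1 := by
    rw [div_le_one h2]
    linarith
  have h5 : 0 < (1 / (N + 1)) * Complex.normSq P := by positivity
  nlinarith

/-- Limits of positive functionals. -/
theorem exists_limit (ω : ℕ → (A →L[ℂ] ℂ)) (hpos : ∀ n, IsPositive (ω n)) (hn : ∀ n, ‖ω n‖ ≤ 1) :
    ∃ φ : A →L[ℂ] ℂ, IsPositive φ ∧ ‖φ‖ ≤ 1 ∧
      ∀ a c, (∀ᶠ n in atTop, ω n a = c) → φ a = c := by
  let K : Set (WeakDual ℂ A) := WeakDual.toStrongDual ⁻¹' Metric.closedBall 0 1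
  have hK : IsCompact K := WeakDual.isCompact_closedBall (𝕜 := ℂ) (E := A) 0 1
  let ω' : ℕ → WeakDual ℂ A := fun n => StrongDual.toWeakDual (ω n)
  have hω' : ∀ n, ω' n ∈ K := by
    intro n
    change (WeakDual.toStrongDual (StrongDual.toWeakDual (ω n))) ∈ Metric.closedBall 0 1
    rw [mem_closedBall_zero_iff]
    exact hn n
  let U : Ultrafilter (WeakDual ℂ A) := (hyperfilter ℕ).map ω'
  have hU : (U : Filter (WeakDual ℂ A)) ≤ 𝓟 K := by
    rw [le_principal_iff]
    change K ∈ (hyperfilter ℕ).map ω'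
    rw [Ultrafilter.mem_map]
    have : ω' ⁻¹' K = Set.univ := Set.eq_univ_of_forall hω'
    rw [this]
    exact Filter.univ_mem
  obtain ⟨φ, hφK, hφ⟩ := hK.ultrafilter_le_nhds U hU
  have hev : ∀ a : A, Tendsto (fun n => ω n a) (hyperfilter ℕ) (𝓝 (φ a)) := by
    intro a
    have h1 : Tendsto (fun ρ : WeakDual ℂ A => ρ a) (𝓝 φ) (𝓝 (φ a)) :=
      (WeakDual.eval_continuous a).continuousAt
    exact h1.comp hφ
  refine ⟨WeakDual.toStrongDual φ, ?_, ?_, ?_⟩
  · intro a
    have h1 := hev (star a * a)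
    constructor
    · have h2 := (Complex.continuous_re.tendsto _).comp h1
      exact ge_of_tendsto' h2 fun n => (hpos n a).1
    · have h2 := (Complex.continuous_im.tendsto _).comp h1
      have h3 : (Complex.im ∘ fun n => ω n (star a * a)) = fun _ => 0 :=
        funext fun n => (hpos n a).2
      rw [h3] at h2
      exact (tendsto_nhds_unique h2 tendsto_const_nhds)
  · have h1 : (WeakDual.toStrongDual φ) ∈ Metric.closedBall 0 1 := hφK
    rwa [mem_closedBall_zero_iff] at h1
  · intro a c hc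
    have h1 : (fun n => ω n a) =ᶠ[(hyperfilter ℕ : Filter ℕ)] fun _ => c :=
      _root_.Nat.hyperfilter_le_atTop hc
    exact tendsto_nhds_unique (hev a) (tendsto_const_nhds.congr' h1.symm)

/-- The compactness argument. -/
theorem exists_finset {I : Type*} (e : I → A) (c : A) (δ : ℝ)
    (h : ∀ ρ : A →L[ℂ] ℂ, IsPositive ρ → ‖ρ‖ ≤ 1 → (ρ c).re ≤ 1 - δ → ∃ i, (ρ (e i)).re < 1) :
    ∃ F : Finset I, ∀ ρ : A →L[ℂ] ℂ, IsPositive ρ → ‖ρ‖ ≤ 1 → (ρ c).re ≤ 1 - δ →
      ∃ i ∈ F, (ρ (e i)).re < 1 := by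
  let K : Set (WeakDual ℂ A) := WeakDual.toStrongDual ⁻¹' Metric.closedBall 0 1
  have hK : IsCompact K := WeakDual.isCompact_closedBall (𝕜 := ℂ) (E := A) 0 1
  let C : Set (WeakDual ℂ A) := {ρ | (∀ a : A, 0 ≤ (ρ (star a * a)).re ∧ (ρ (star a * a)).im = 0) ∧
    (ρ c).re ≤ 1 - δ}
  have hC : IsClosed C := by
    have h1 : C = (⋂ a : A, {ρ | 0 ≤ (ρ (star a * a)).re} ∩ {ρ | (ρ (star a * a)).im = 0}) ∩
        {ρ | (ρ c).re ≤ 1 - δ} := by
      ext ρ
      simp [C, Set.mem_iInter]
    rw [h1]
    refine IsClosed.inter (isClosed_iInter fun a => IsClosed.inter ?_ ?_) ?_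
    · exact isClosed_le continuous_const (Complex.continuous_re.comp (WeakDual.eval_continuous _))
    · exact isClosed_eq (Complex.continuous_im.comp (WeakDual.eval_continuous _)) continuous_const
    · exact isClosed_le (Complex.continuous_re.comp (WeakDual.eval_continuous _)) continuous_const
  have hKC : IsCompact (K ∩ C) := hK.inter_right hC
  obtain ⟨F, hF⟩ := hKC.elim_finite_subcover (fun i => {ρ : WeakDual ℂ A | (ρ (e i)).re < 1})
    (fun i => isOpen_lt (Complex.continuous_re.comp (WeakDual.eval_continuous _)) continuous_const)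
    (by
      intro ρ hρ
      obtain ⟨h1, h2, h3⟩ := hρ
      have h4 : (WeakDual.toStrongDual ρ) ∈ Metric.closedBall 0 1 := h1
      rw [mem_closedBall_zero_iff] at h4
      obtain ⟨i, hi⟩ := h (WeakDual.toStrongDual ρ) h2 h4 h3
      exact Set.mem_iUnion.2 ⟨i, hi⟩)
  refine ⟨F, fun ρ hρ hn hc => ?_⟩
  have h1 : StrongDual.toWeakDual ρ ∈ K ∩ C := by
    refine ⟨?_, hρ, hc⟩
    change (WeakDual.toStrongDual (StrongDual.toWeakDual ρ)) ∈ Metric.closedBall 0 1
    rw [mem_closedBall_zero_iff]
    exact hn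
  obtain ⟨i, hi⟩ := Set.mem_iUnion.1 (hF h1)
  obtain ⟨hiF, hi2⟩ := Set.mem_iUnion.1 hi
  exact ⟨i, hiF, hi2⟩

end Facts

end Pool.Agent.R296.PSE
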