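import Mathlib

/-!
The C*-algebra generated by the translations and the characters of the group `Γ = ℕ →₀ ZMod 2` on
`ℓ²(Γ)`.
-/

set_option autoImplicit false

noncomputable section

namespace Pool.Agent.R296.Weyl

open scoped ENNReal
open Filter Topology

/-- The group `Γ`, finitely supported 0-1-sequences. -/
abbrev Γ : Type := ℕ →₀ ZMod 2

/-- The dual group of `Γ` (all its characters, written additively). -/
abbrev W : Type := Γ →ₗ[ZMod 2] ZMod 2

/-- The Hilbert space `ℓ²(Γ)`. -/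
abbrev H : Type := lp (fun _ : Γ => ℂ) 2

/-- The sign of an element of `ZMod 2`. -/
def sg (a : ZMod 2) : ℂ := if a = 0 then 1 else -1

@[simp] theorem sg_zero : sg 0 = 1 := by simp [sg]

theorem sg_one : sg 1 = -1 := by
  rw [sg, if_neg (by decide)]

theorem sg_add (a b : ZMod 2) : sg (a + b) = sg a * sg b := by
  have h2 : ∀ a : ZMod 2, a = 0 ∨ a = 1 := by decide
  rcases h2 a with rfl | rfl <;> rcases h2 b with rfl | rfl
  · simp
  · simp
  · simp
  · rw [show (1 : ZMod 2) + 1 = 0 by decide, sg_one, sg_zero]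
    norm_num

theorem norm_sg (a : ZMod 2) : ‖sg a‖ = 1 := by
  rw [sg]
  split_ifs <;> simp

theorem sg_mul_self (a : ZMod 2) : sg a * sg a = 1 := by
  rw [sg]
  split_ifs <;> simp

theorem star_sg (a : ZMod 2) : star (sg a) = sg a := by
  rw [sg]
  split_ifs <;> simp

theorem add_self' {M : Type} [AddCommGroup M] [Module (ZMod 2) M] (x : M) : x + x = 0 := by
  have h : (1 + 1 : ZMod 2) = 0 := by decide
  have h2 : ((1 : ZMod 2) + 1) • x = 0 := by rw [h, zero_smul]
  rwa [add_smul, one_smul] at h2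

/-- the weighted translation of functions -/
def opFun (x : Γ) (f : W) (ξ : Γ → ℂ) : Γ → ℂ := fun y => sg (f y) * ξ (y + x)

theorem opFun_mem (x : Γ) (f : W) (ξ : H) : Memℓp (opFun x f ξ) 2 := by
  have h2 : (0 : ℝ) < (2 : ℝ≥0∞).toReal := by norm_num
  have h := lp.memℓp ξ
  rw [memℓp_gen_iff h2] at h ⊢
  have h3 : (fun y : Γ => ‖opFun x f ξ y‖ ^ (2 : ℝ≥0∞).toReal)
      = (fun y : Γ => ‖ξ y‖ ^ (2 : ℝ≥0∞).toReal) ∘ (Equiv.addRight x) := by
    funext y
    simp [opFun, norm_sg]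
  rw [h3]
  exact (Equiv.addRight x).summable_iff.2 h

/-- the linear map -/
def opLin (x : Γ) (f : W) : H →ₗ[ℂ] H where
  toFun ξ := ⟨opFun x f ξ, opFun_mem x f ξ⟩
  map_add' ξ η := by
    ext y
    change sg (f y) * (ξ + η : H) (y + x) = sg (f y) * ξ (y + x) + sg (f y) * η (y + x)
    rw [lp.coeFn_add, Pi.add_apply, mul_add]
  map_smul' c ξ := by
    ext y
    change sg (f y) * (c • ξ : H) (y + x) = c * (sg (f y) * ξ (y + x))
    rw [lp.coeFn_smul, Pi.smul_apply, smul_eq_mul]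
    ring

theorem opLin_norm (x : Γ) (f : W) (ξ : H) : ‖opLin x f ξ‖ = ‖ξ‖ := by
  have h2 : (0 : ℝ) < (2 : ℝ≥0∞).toReal := by norm_num
  rw [lp.norm_eq_tsum_rpow h2, lp.norm_eq_tsum_rpow h2]
  congr 1
  have h3 : (fun y : Γ => ‖opLin x f ξ y‖ ^ (2 : ℝ≥0∞).toReal)
      = (fun y : Γ => ‖ξ y‖ ^ (2 : ℝ≥0∞).toReal) ∘ (Equiv.addRight x) := by
    funext y
    change ‖opFun x f ξ y‖ ^ (2 : ℝ≥0∞).toReal = _
    simp [opFun, norm_sg]
  rw [h3]
  exact (Equiv.addRight x).tsum_eq (fun y : Γ => ‖ξ y‖ ^ (2 : ℝ≥0∞).toReal)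

/-- The operator `(op x f ξ)(y) = (-1)^(f y) ξ(y + x)`. -/
def op (x : Γ) (f : W) : H →L[ℂ] H :=
  (opLin x f).mkContinuous 1 fun ξ => by rw [opLin_norm, one_mul]

theorem op_apply (x : Γ) (f : W) (ξ : H) (y : Γ) : op x f ξ y = sg (f y) * ξ (y + x) := rfl

theorem norm_op_apply (x : Γ) (f : W) (ξ : H) : ‖op x f ξ‖ = ‖ξ‖ := opLin_norm x f ξ

theorem op_mul (x : Γ) (f : W) (z : Γ) (g : W) :
    op x f * op z g = sg (g x) • op (x + z) (f + g) := by
  ext ξ y
  change sg (f y) * (sg (g (y + x)) * ξ (y + x + z)) = sg (g x) * (sg ((f + g) y) * ξ (y + (x + z)))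
  rw [LinearMap.add_apply, map_add, sg_add, sg_add, add_assoc]
  ring

theorem op_zero : op 0 0 = 1 := by
  ext ξ y
  change sg ((0 : W) y) * ξ (y + 0) = ξ y
  rw [LinearMap.zero_apply, sg_zero, one_mul, add_zero]

theorem op_sq (x : Γ) (f : W) : op x f * op x f = sg (f x) • (1 : H →L[ℂ] H) := by
  rw [op_mul, add_self' x, add_self' f, op_zero]

theorem star_op (x : Γ) (f : W) : star (op x f) = sg (f x) • op x f := by
  have h1 : star (op x f) * op x f = 1 := by
    rw [ContinuousLinearMap.star_eq_adjoint]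
    exact (ContinuousLinearMap.norm_map_iff_adjoint_comp_self _).1 (norm_op_apply x f)
  have h2 : op x f * (sg (f x) • op x f) = 1 := by
    rw [mul_smul_comm, op_sq, smul_smul, sg_mul_self, one_smul]
  calc star (op x f) = star (op x f) * (op x f * (sg (f x) • op x f)) := by rw [h2, mul_one]
    _ = sg (f x) • op x f := by rw [← mul_assoc, h1, one_mul]

/-- the linear span of the operators `op x f` -/
def A0 : Submodule ℂ (H →L[ℂ] H) := Submodule.span ℂ (Set.range fun p : Γ × W => op p.1 p.2)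

theorem op_mem (x : Γ) (f : W) : op x f ∈ A0 := Submodule.subset_span ⟨(x, f), rfl⟩

theorem one_mem : (1 : H →L[ℂ] H) ∈ A0 := op_zero ▸ op_mem 0 0

theorem mul_mem {a b : H →L[ℂ] H} (ha : a ∈ A0) (hb : b ∈ A0) : a * b ∈ A0 := by
  refine Submodule.span_induction (p := fun a _ => a * b ∈ A0) ?_ ?_ ?_ ?_ ha
  · rintro _ ⟨⟨x, f⟩, rfl⟩
    refine Submodule.span_induction (p := fun b _ => op x f * b ∈ A0) ?_ ?_ ?_ ?_ hb
    · rintro _ ⟨⟨z, g⟩, rfl⟩
      change op x f * op z g ∈ A0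
      rw [op_mul]
      exact A0.smul_mem _ (op_mem _ _)
    · rw [mul_zero]; exact A0.zero_mem
    · intro a b _ _ ha hb
      rw [mul_add]
      exact A0.add_mem ha hb
    · intro c a _ ha
      rw [mul_smul_comm]
      exact A0.smul_mem _ ha
  · rw [zero_mul]; exact A0.zero_mem
  · intro a b _ _ ha hb
    rw [add_mul]
    exact A0.add_mem ha hb
  · intro c a _ ha
    rw [smul_mul_assoc]
    exact A0.smul_mem _ ha

theorem star_mem {a : H →L[ℂ] H} (ha : a ∈ A0) : star a ∈ A0 := by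
  refine Submodule.span_induction (p := fun a _ => star a ∈ A0) ?_ ?_ ?_ ?_ ha
  · rintro _ ⟨⟨x, f⟩, rfl⟩
    change star (op x f) ∈ A0
    rw [star_op]
    exact A0.smul_mem _ (op_mem _ _)
  · rw [star_zero]; exact A0.zero_mem
  · intro a b _ _ ha hb
    rw [star_add]
    exact A0.add_mem ha hb
  · intro c a _ ha
    rw [star_smul]
    exact A0.smul_mem _ ha

/-- `A0` as a `*`-algebra -/
def A1 : StarSubalgebra ℂ (H →L[ℂ] H) where
  carrier := A0
  mul_mem' := mul_mem
  one_mem' := one_mem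
  add_mem' := A0.add_mem
  zero_mem' := A0.zero_mem
  algebraMap_mem' c := by
    rw [Algebra.algebraMap_eq_smul_one]
    exact A0.smul_mem _ one_mem
  star_mem' := star_mem

/-- The C*-algebra generated by the translations and characters. -/
def AA : StarSubalgebra ℂ (H →L[ℂ] H) := A1.topologicalClosure

instance : IsClosed (AA : Set (H →L[ℂ] H)) := A1.isClosed_topologicalClosure

theorem mem_AA_iff (a : H →L[ℂ] H) : a ∈ AA ↔ a ∈ closure (A0 : Set (H →L[ℂ] H)) := Iff.rfl

theorem op_mem_AA (x : Γ) (f : W) : op x f ∈ AA := A1.le_topologicalClosure (op_mem x f)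

end Pool.Agent.R296.Weyl
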