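import Pool.Agent.R296.Weyl

/-!
The C*-algebra `AA` is simple.
-/

set_option autoImplicit false

noncomputable section

namespace Pool.Agent.R296.Weyl

open scoped ENNReal
open Filter Topology

/-- the basis vector at `y` -/
def dl (y : Γ) : H := lp.single 2 y (1 : ℂ)

theorem dl_apply (y z : Γ) : dl y z = if z = y then 1 else 0 := by
  rw [dl, lp.single_apply]
  by_cases h : z = y
  · subst h; simp
  · rw [if_neg h, Pi.single_eq_of_ne h]

theorem norm_dl (y : Γ) : ‖dl y‖ = 1 := by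
  rw [dl, lp.norm_single (by norm_num)]
  simp

theorem op_dl (x : Γ) (f : W) (y : Γ) : op x f (dl y) = sg (f (x + y)) • dl (x + y) := by
  ext z
  rw [op_apply, dl_apply, lp.coeFn_smul, Pi.smul_apply, dl_apply, smul_eq_mul]
  have h : z + x = y ↔ z = x + y := by
    constructor
    · intro h
      rw [← h, add_comm z x, ← add_assoc, add_self' x, zero_add]
    · intro h
      rw [h, add_comm x y, add_assoc, add_self' x, add_zero]
  by_cases h2 : z = x + y
  · rw [if_pos (h.2 h2), if_pos h2, h2]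
  · rw [if_neg (fun h3 => h2 (h.1 h3)), if_neg h2, mul_zero, mul_zero]

theorem op_zero_dl_zero (f : W) : op 0 f (dl 0) = dl 0 := by
  rw [op_dl, add_zero, map_zero, sg_zero, one_smul]

theorem op_dl_zero (x : Γ) : op x 0 (dl 0) = dl x := by
  rw [op_dl, add_zero, LinearMap.zero_apply, sg_zero, one_smul]

theorem ext_dl {a : H →L[ℂ] H} (h : ∀ y, a (dl y) = 0) : a = 0 := by
  ext1 ξ
  have h1 := (lp.hasSum_single (by norm_num : (2 : ℝ≥0∞) ≠ ⊤) ξ).mapL a
  have h2 : (fun i : Γ => a (lp.single 2 i (ξ i))) = fun _ => 0 := by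
    funext i
    have h3 : lp.single 2 i (ξ i) = ξ i • dl i := by
      rw [dl, ← lp.single_smul, smul_eq_mul, mul_one]
    rw [h3, map_smul, h i, smul_zero]
  rw [h2] at h1
  exact (h1.unique hasSum_zero)

/-- the coefficient `⟨δ₀, a δ₀⟩` -/
def cf : (H →L[ℂ] H) →ₗ[ℂ] ℂ where
  toFun a := inner ℂ (dl 0) (a (dl 0))
  map_add' a b := by rw [ContinuousLinearMap.add_apply, inner_add_right]
  map_smul' c a := by rw [ContinuousLinearMap.smul_apply, inner_smul_right, smul_eq_mul,
    RingHom.id_apply]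

theorem cf_apply (a : H →L[ℂ] H) : cf a = inner ℂ (dl 0) (a (dl 0)) := rfl

theorem norm_cf_le (a : H →L[ℂ] H) : ‖cf a‖ ≤ ‖a‖ := by
  rw [cf_apply]
  refine (norm_inner_le_norm _ _).trans ?_
  rw [norm_dl, one_mul]
  refine (a.le_opNorm _).trans ?_
  rw [norm_dl, mul_one]

theorem cf_star_mul (a : H →L[ℂ] H) : cf (star a * a) = ((‖a (dl 0)‖ ^ 2 : ℝ) : ℂ) := by
  rw [cf_apply, ContinuousLinearMap.star_eq_adjoint, ContinuousLinearMap.mul_apply,
    ContinuousLinearMap.adjoint_inner_right, inner_self_eq_norm_sq_to_K]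
  norm_cast

theorem norm_op_le (x : Γ) (f : W) : ‖op x f‖ ≤ 1 :=
  ContinuousLinearMap.opNorm_le_bound _ zero_le_one fun ξ => by rw [norm_op_apply, one_mul]

theorem op_zero_mul (f g : W) : op 0 f * op 0 g = op 0 (f + g) := by
  rw [op_mul, map_zero, sg_zero, one_smul, add_zero]

theorem op_zero_sq (f : W) : op 0 f * op 0 f = 1 := by
  rw [op_sq, map_zero, sg_zero, one_smul]

theorem star_op_zero (f : W) : star (op 0 f) = op 0 f := by
  rw [star_op, map_zero, sg_zero, one_smul]

theorem star_op_zero' (x : Γ) : star (op x 0) = op x 0 := by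
  rw [star_op, LinearMap.zero_apply, sg_zero, one_smul]

/-- the average `(a + u a u) / 2` over the unitary `u = op 0 g` -/
def avg (g : W) : Module.End ℂ (H →L[ℂ] H) where
  toFun a := (1 / 2 : ℂ) • (a + op 0 g * a * op 0 g)
  map_add' a b := by
    rw [mul_add, add_mul, ← smul_add]
    congr 1
    abel
  map_smul' c a := by
    rw [mul_smul_comm, smul_mul_assoc, ← smul_add, smul_comm, RingHom.id_apply]

theorem avg_apply (g : W) (a : H →L[ℂ] H) :
    avg g a = (1 / 2 : ℂ) • (a + op 0 g * a * op 0 g) := rfl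

theorem norm_avg_le (g : W) (a : H →L[ℂ] H) : ‖avg g a‖ ≤ ‖a‖ := by
  rw [avg_apply, norm_smul]
  have h1 : ‖op 0 g * a * op 0 g‖ ≤ ‖a‖ := by
    calc ‖op 0 g * a * op 0 g‖ ≤ ‖op 0 g * a‖ * ‖op 0 g‖ := norm_mul_le _ _
      _ ≤ (‖op 0 g‖ * ‖a‖) * ‖op 0 g‖ := mul_le_mul_of_nonneg_right (norm_mul_le _ _) (norm_nonneg _)
      _ ≤ (1 * ‖a‖) * 1 := by
        refine mul_le_mul (mul_le_mul_of_nonneg_right (norm_op_le _ _) (norm_nonneg _))
          (norm_op_le _ _) (norm_nonneg _) (by positivity)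
      _ = ‖a‖ := by ring
  have h2 := norm_add_le a (op 0 g * a * op 0 g)
  have h3 : ‖(1 / 2 : ℂ)‖ = 1 / 2 := by norm_num
  rw [h3]
  linarith

theorem avg_op (g : W) (x : Γ) (f : W) :
    avg g (op x f) = ((1 / 2 : ℂ) * (1 + sg (g x))) • op x f := by
  have h : op 0 g * op x f * op 0 g = sg (g x) • op x f := by
    rw [mul_assoc, op_mul, mul_smul_comm, op_mul, map_zero, sg_zero, one_smul, add_zero, zero_add,
      add_comm g, add_assoc, add_self' g, add_zero]
  rw [avg_apply, h, mul_smul, add_smul, one_smul]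

theorem cf_avg (g : W) (a : H →L[ℂ] H) : cf (avg g a) = cf a := by
  have h : cf (op 0 g * a * op 0 g) = cf a := by
    rw [cf_apply, cf_apply, ContinuousLinearMap.mul_apply, ContinuousLinearMap.mul_apply,
      op_zero_dl_zero]
    have h2 : inner ℂ (dl 0) (op 0 g (a (dl 0))) = inner ℂ (star (op 0 g) (dl 0)) (a (dl 0)) := by
      rw [ContinuousLinearMap.star_eq_adjoint, ContinuousLinearMap.adjoint_inner_left]
    rw [h2, star_op_zero, op_zero_dl_zero]
  rw [avg_apply, map_smul, map_add, h, smul_eq_mul]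
  ring

/-- composition of averages -/
def EE (L : List W) : Module.End ℂ (H →L[ℂ] H) := (L.map avg).prod

theorem EE_nil : EE [] = 1 := rfl

theorem EE_cons (g : W) (L : List W) (a : H →L[ℂ] H) : EE (g :: L) a = avg g (EE L a) := by
  rw [EE, List.map_cons, List.prod_cons]
  rfl

theorem EE_append (L M : List W) (a : H →L[ℂ] H) : EE (L ++ M) a = EE L (EE M a) := by
  rw [EE, List.map_append, List.prod_append]
  rfl

theorem norm_EE_le (L : List W) (a : H →L[ℂ] H) : ‖EE L a‖ ≤ ‖a‖ := by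
  induction L with
  | nil => exact le_rfl
  | cons g L ih => rw [EE_cons]; exact (norm_avg_le _ _).trans ih

theorem cf_EE (L : List W) (a : H →L[ℂ] H) : cf (EE L a) = cf a := by
  induction L with
  | nil => rfl
  | cons g L ih => rw [EE_cons, cf_avg, ih]

theorem EE_op (L : List W) (x : Γ) (f : W) : ∃ c : ℂ, EE L (op x f) = c • op x f := by
  induction L with
  | nil => exact ⟨1, by rw [one_smul]; rfl⟩
  | cons g L ih =>
    obtain ⟨c, hc⟩ := ih
    refine ⟨c * ((1 / 2 : ℂ) * (1 + sg (g x))), ?_⟩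
    rw [EE_cons, hc, map_smul, avg_op, smul_smul]

/-- the span of the characters -/
def D0 : Submodule ℂ (H →L[ℂ] H) := Submodule.span ℂ (Set.range fun f : W => op 0 f)

theorem avg_D0 (g : W) {d : H →L[ℂ] H} (hd : d ∈ D0) : avg g d = d := by
  refine Submodule.span_induction (p := fun d _ => avg g d = d) ?_ ?_ ?_ ?_ hd
  · rintro _ ⟨f, rfl⟩
    change avg g (op 0 f) = op 0 f
    rw [avg_op, map_zero, sg_zero]
    norm_num
  · exact map_zero _
  · intro a b _ _ ha hb
    rw [map_add, ha, hb]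
  · intro c a _ ha
    rw [map_smul, ha]

theorem EE_D0 (L : List W) {d : H →L[ℂ] H} (hd : d ∈ D0) : EE L d = d := by
  induction L with
  | nil => rfl
  | cons g L ih => rw [EE_cons, ih, avg_D0 g hd]

/-- linear forms separate the points of `Γ` -/
theorem exists_form {x : Γ} (hx : x ≠ 0) : ∃ g : W, g x = 1 := by
  have h : ∃ n, x n ≠ 0 := by
    by_contra h
    push Not at h
    exact hx (Finsupp.ext h)
  obtain ⟨n, hn⟩ := h
  refine ⟨Finsupp.lapply n, ?_⟩
  have h2 : ∀ a : ZMod 2, a ≠ 0 → a = 1 := by decide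
  exact h2 _ hn

theorem exists_EE {b : H →L[ℂ] H} (hb : b ∈ A0) : ∀ L : List W, ∃ M : List W,
    EE M (EE L b) ∈ D0 := by
  refine Submodule.span_induction
    (p := fun b _ => ∀ L : List W, ∃ M : List W, EE M (EE L b) ∈ D0) ?_ ?_ ?_ ?_ hb
  · rintro _ ⟨⟨x, f⟩, rfl⟩ L
    change ∃ M : List W, EE M (EE L (op x f)) ∈ D0
    obtain ⟨c, hc⟩ := EE_op L x f
    by_cases hx : x = 0
    · subst hx
      refine ⟨[], ?_⟩
      rw [hc]
      exact D0.smul_mem _ (Submodule.subset_span ⟨f, rfl⟩)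
    · obtain ⟨g, hg⟩ := exists_form hx
      refine ⟨[g], ?_⟩
      have h0 : EE [g] (EE L (op x f)) = 0 := by
        rw [EE_cons, hc, EE_nil]
        change avg g (c • op x f) = 0
        rw [map_smul, avg_op, hg, sg_one]
        norm_num
      rw [h0]
      exact D0.zero_mem
  · intro L
    refine ⟨[], ?_⟩
    rw [map_zero, map_zero]
    exact D0.zero_mem
  · intro a b _ _ ha hb L
    obtain ⟨M, hM⟩ := ha L
    obtain ⟨N, hN⟩ := hb (M ++ L)
    refine ⟨N ++ M, ?_⟩
    rw [map_add, map_add, EE_append, EE_append, EE_D0 N hM]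
    rw [EE_append] at hN
    exact D0.add_mem hM hN
  · intro c a _ ha L
    obtain ⟨M, hM⟩ := ha L
    refine ⟨M, ?_⟩
    rw [map_smul, map_smul]
    exact D0.smul_mem _ hM

end Pool.Agent.R296.Weyl
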