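import Pool.Agent.R296.WeylSimple

/-!
The C*-algebra `AA` is simple, conclusion.
-/

set_option autoImplicit false

noncomputable section

namespace Pool.Agent.R296.Weyl

open scoped ENNReal
open Filter Topology

/-- the projection onto the joint eigenspace for the value `1` of the characters in `L` -/
def PP : List W → (H →L[ℂ] H)
  | [] => 1
  | f :: L => ((1 / 2 : ℂ) • (1 + op 0 f)) * PP L

theorem op_comm (f g : W) : op 0 f * op 0 g = op 0 g * op 0 f := by
  rw [op_zero_mul, op_zero_mul, add_comm]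

theorem op_comm_PP (f : W) (L : List W) : op 0 f * PP L = PP L * op 0 f := by
  induction L with
  | nil => rw [PP, mul_one, one_mul]
  | cons g L ih =>
    rw [PP, mul_assoc, ← ih, ← mul_assoc, ← mul_assoc]
    congr 1
    rw [mul_smul_comm, smul_mul_assoc, mul_add, add_mul, mul_one, one_mul, op_comm]

theorem PP_fix {f : W} {L : List W} (h : f ∈ L) : op 0 f * PP L = PP L := by
  induction L with
  | nil => simp at h
  | cons g L ih =>
    rcases List.mem_cons.1 h with rfl | h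
    · rw [PP, ← mul_assoc, mul_smul_comm, mul_add, mul_one, op_zero_sq, add_comm]
    · rw [PP, ← mul_assoc, mul_smul_comm, mul_add, mul_one, op_comm, ← one_add_mul, ← smul_mul_assoc,
        mul_assoc, ih h]

theorem PP_mem (L : List W) : PP L ∈ AA := by
  induction L with
  | nil => exact AA.one_mem
  | cons f L ih =>
    exact AA.mul_mem (AA.smul_mem (AA.add_mem AA.one_mem (op_mem_AA _ _)) _) ih

theorem half_sq (f : W) : ((1 / 2 : ℂ) • (1 + op 0 f)) * ((1 / 2 : ℂ) • (1 + op 0 f))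
    = (1 / 2 : ℂ) • (1 + op 0 f) := by
  rw [smul_mul_smul_comm, mul_add, mul_one, add_mul, one_mul, op_zero_sq,
    add_comm (op 0 f) (1 : H →L[ℂ] H), ← two_smul ℂ (1 + op 0 f), smul_smul]
  norm_num

theorem PP_idem (L : List W) : PP L * PP L = PP L := by
  induction L with
  | nil => rw [PP, mul_one]
  | cons f L ih =>
    have h1 : PP L * ((1 / 2 : ℂ) • (1 + op 0 f)) = ((1 / 2 : ℂ) • (1 + op 0 f)) * PP L := by
      rw [mul_smul_comm, smul_mul_assoc, mul_add, add_mul, mul_one, one_mul, op_comm_PP]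
    rw [PP]
    calc _ = ((1 / 2 : ℂ) • (1 + op 0 f)) * (PP L * ((1 / 2 : ℂ) • (1 + op 0 f))) * PP L := by
          simp only [mul_assoc]
      _ = (((1 / 2 : ℂ) • (1 + op 0 f)) * ((1 / 2 : ℂ) • (1 + op 0 f))) * (PP L * PP L) := by
          rw [h1]
          simp only [mul_assoc]
      _ = _ := by rw [half_sq, ih]

theorem norm_PP_le (L : List W) : ‖PP L‖ ≤ 1 := by
  induction L with
  | nil => exact ContinuousLinearMap.norm_id_le
  | cons f L ih =>
    rw [PP]
    have h1 : ‖(1 / 2 : ℂ) • ((1 : H →L[ℂ] H) + op 0 f)‖ ≤ 1 := by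
      rw [norm_smul]
      have h2 : ‖(1 : H →L[ℂ] H) + op 0 f‖ ≤ 1 + 1 :=
        (norm_add_le _ _).trans (add_le_add ContinuousLinearMap.norm_id_le (norm_op_le _ _))
      have h3 : ‖(1 / 2 : ℂ)‖ = 1 / 2 := by norm_num
      rw [h3]
      linarith
    exact (norm_mul_le _ _).trans (mul_le_one₀ h1 (norm_nonneg _) ih)

theorem D0_fin {d : H →L[ℂ] H} (hd : d ∈ D0) : ∃ L : List W, d * PP L = cf d • PP L := by
  classical
  have h1 : ∃ L : List W, d ∈ Submodule.span ℂ ((fun f : W => op 0 f) '' {f | f ∈ L}) := by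
    refine Submodule.span_induction (p := fun d _ => ∃ L : List W,
      d ∈ Submodule.span ℂ ((fun f : W => op 0 f) '' {f | f ∈ L})) ?_ ?_ ?_ ?_ hd
    · rintro _ ⟨f, rfl⟩
      exact ⟨[f], Submodule.subset_span ⟨f, by simp, rfl⟩⟩
    · exact ⟨[], Submodule.zero_mem _⟩
    · rintro a b _ _ ⟨L, hL⟩ ⟨M, hM⟩
      refine ⟨L ++ M, Submodule.add_mem _ (Submodule.span_mono ?_ hL) (Submodule.span_mono ?_ hM)⟩
      · exact Set.image_mono fun f hf => List.mem_append_left _ hf
      · exact Set.image_mono fun f hf => List.mem_append_right _ hf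
    · rintro c a _ ⟨L, hL⟩
      exact ⟨L, Submodule.smul_mem _ _ hL⟩
  obtain ⟨L, hL⟩ := h1
  refine ⟨L, ?_⟩
  refine Submodule.span_induction (p := fun d _ => d * PP L = cf d • PP L) ?_ ?_ ?_ ?_ hL
  · rintro _ ⟨f, hf, rfl⟩
    change op 0 f * PP L = cf (op 0 f) • PP L
    rw [PP_fix hf, cf_apply, op_zero_dl_zero, inner_self_eq_norm_sq_to_K, norm_dl]
    norm_num
  · rw [zero_mul, map_zero, zero_smul]
  · intro a b _ _ ha hb
    rw [add_mul, ha, hb, map_add, add_smul]
  · intro c a _ ha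
    rw [smul_mul_assoc, ha, map_smul, smul_smul, smul_eq_mul]

theorem op_anticomm (x : Γ) (g : W) : op x 0 * op 0 g = sg (g x) • (op 0 g * op x 0) := by
  rw [op_mul, op_mul, LinearMap.zero_apply, sg_zero, one_smul, add_zero, zero_add, add_zero,
    zero_add]

theorem op_x_sq (x : Γ) : op x 0 * op x 0 = 1 := by
  rw [op_sq, LinearMap.zero_apply, sg_zero, one_smul]

theorem conj_PP (x : Γ) (L : List W) (h : ∀ g ∈ L, g x = 0) : op x 0 * PP L = PP L * op x 0 := by
  induction L with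
  | nil => rw [PP, mul_one, one_mul]
  | cons g L ih =>
    have h1 : op x 0 * op 0 g = op 0 g * op x 0 := by
      rw [op_anticomm, h g (List.mem_cons_self), sg_zero, one_smul]
    rw [PP, mul_assoc, ← ih (fun g hg => h g (List.mem_cons_of_mem _ hg)), ← mul_assoc,
      ← mul_assoc]
    congr 1
    rw [mul_smul_comm, smul_mul_assoc, mul_add, add_mul, mul_one, one_mul, h1]

/-- The core of the simplicity of `AA`: an ideal containing the projection `PP L` contains `1`. -/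
theorem ideal_PP (I : Submodule ℂ (H →L[ℂ] H))
    (hl : ∀ a ∈ AA, ∀ x ∈ I, a * x ∈ I) (hr : ∀ a ∈ AA, ∀ x ∈ I, x * a ∈ I) (L : List W)
    (h : PP L ∈ I) : (1 : H →L[ℂ] H) ∈ I := by
  classical
  induction L with
  | nil => exact h
  | cons f L ih =>
    apply ih
    by_cases hx : ∃ x : Γ, f x = 1 ∧ ∀ g ∈ L, g x = 0
    · obtain ⟨x, hfx, hgx⟩ := hx
      have h1 : op x 0 * op 0 f = -(op 0 f * op x 0) := by
        rw [op_anticomm, hfx, sg_one, neg_smul, one_smul]
      have h2 : op x 0 * PP (f :: L) * op x 0 = ((1 / 2 : ℂ) • (1 - op 0 f)) * PP L := by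
        have h3 : op x 0 * ((1 / 2 : ℂ) • (1 + op 0 f))
            = ((1 / 2 : ℂ) • (1 - op 0 f)) * op x 0 := by
          rw [mul_smul_comm, smul_mul_assoc, mul_add, sub_mul, mul_one, one_mul, h1, sub_eq_add_neg]
        rw [PP, ← mul_assoc, h3, mul_assoc, mul_assoc, ← conj_PP x L hgx, ← mul_assoc (op x 0),
          op_x_sq, one_mul]
      have h4 : PP L = PP (f :: L) + op x 0 * PP (f :: L) * op x 0 := by
        rw [h2, PP, ← add_mul, ← smul_add]
        have h5 : (1 + op 0 f + (1 - op 0 f) : H →L[ℂ] H) = (2 : ℂ) • 1 := by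
          rw [two_smul]
          abel
        rw [h5, smul_smul]
        norm_num
      rw [h4]
      exact I.add_mem h (hr _ (op_mem_AA _ _) _ (hl _ (op_mem_AA _ _) _ h))
    · have hf : f ∈ Submodule.span (ZMod 2) (Set.range fun g : {g // g ∈ L} => (g : W)) := by
        apply mem_span_of_iInf_ker_le_ker
        intro x hx'
        rw [Submodule.mem_iInf] at hx'
        rw [LinearMap.mem_ker]
        by_contra h0
        have h2 : ∀ a : ZMod 2, a ≠ 0 → a = 1 := by decide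
        exact hx ⟨x, h2 _ h0, fun g hg => hx' ⟨g, hg⟩⟩
      have h1 : op 0 f * PP L = PP L := by
        refine Submodule.span_induction (p := fun f _ => op 0 f * PP L = PP L) ?_ ?_ ?_ ?_ hf
        · rintro _ ⟨⟨g, hg⟩, rfl⟩
          exact PP_fix hg
        · rw [op_zero, one_mul]
        · intro a b _ _ ha hb
          rw [← op_zero_mul, mul_assoc, hb, ha]
        · intro c a _ ha
          have h2 : ∀ a : ZMod 2, a = 0 ∨ a = 1 := by decide
          rcases h2 c with rfl | rfl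
          · rw [zero_smul, op_zero, one_mul]
          · rw [one_smul, ha]
      have h2 : PP (f :: L) = PP L := by
        rw [PP, smul_mul_assoc, add_mul, one_mul, h1, ← two_smul ℂ (PP L), smul_smul]
        norm_num
      rw [← h2]
      exact h

/-- A nonzero closed ideal of `AA` contains `1`. -/
theorem ideal_one (I : Submodule ℂ (H →L[ℂ] H)) (hI : ∀ x ∈ I, x ∈ AA)
    (hc : IsClosed (I : Set (H →L[ℂ] H)))
    (hl : ∀ a ∈ AA, ∀ x ∈ I, a * x ∈ I) (hr : ∀ a ∈ AA, ∀ x ∈ I, x * a ∈ I)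
    (hne : ∃ x ∈ I, x ≠ 0) : (1 : H →L[ℂ] H) ∈ I := by
  obtain ⟨x₀, hx₀, hx₀ne⟩ := hne
  -- an element with `x δ₀ ≠ 0`
  obtain ⟨x, hxI, hx⟩ : ∃ x ∈ I, x (dl 0) ≠ 0 := by
    by_contra hcon
    push Not at hcon
    apply hx₀ne
    apply ext_dl
    intro y
    have h1 := hcon (x₀ * op y 0) (hr _ (op_mem_AA _ _) _ hx₀)
    change x₀ (op y 0 (dl 0)) = 0 at h1
    rwa [op_dl_zero] at h1
  set α : ℝ := ‖x (dl 0)‖ ^ 2 with hα
  have hα0 : 0 < α := by
    have := norm_pos_iff.2 hx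
    positivity
  set h := star x * x with hh
  have hhI : h ∈ I := hl _ (StarMemClass.star_mem (hI x hxI)) _ hxI
  have hcf : cf h = (α : ℂ) := cf_star_mul x
  -- approximation
  obtain ⟨b, hb, hbd⟩ : ∃ b ∈ A0, ‖h - b‖ < α / 4 := by
    have h1 : h ∈ closure (A0 : Set (H →L[ℂ] H)) := (mem_AA_iff h).1 (hI h hhI)
    obtain ⟨b, hb, hbd⟩ := Metric.mem_closure_iff.1 h1 (α / 4) (by positivity)
    exact ⟨b, hb, by rwa [dist_eq_norm] at hbd⟩
  obtain ⟨M, hM⟩ := exists_EE hb []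
  have hEnil : EE [] b = b := rfl
  rw [hEnil] at hM
  set d := EE M b with hd
  -- `EE M h ∈ I`
  have hEI : ∀ (M : List W), EE M h ∈ I := by
    intro M
    induction M with
    | nil => exact hhI
    | cons g M ih =>
      rw [EE_cons, avg_apply]
      exact I.smul_mem _ (I.add_mem ih (hr _ (op_mem_AA _ _) _ (hl _ (op_mem_AA _ _) _ ih)))
  have h1 : ‖EE M h - d‖ < α / 4 := by
    rw [hd, ← map_sub]
    exact (norm_EE_le _ _).trans_lt hbd
  have h2 : ‖cf d - (α : ℂ)‖ < α / 4 := by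
    rw [hd, cf_EE, ← hcf, ← map_sub]
    refine (norm_cf_le _).trans_lt ?_
    rw [norm_sub_rev]
    exact hbd
  obtain ⟨L, hL⟩ := D0_fin hM
  apply ideal_PP I hl hr L
  set p := PP L with hp
  have hpA : p ∈ AA := PP_mem L
  set k := p * EE M h * p with hk
  have hkI : k ∈ I := hr _ hpA _ (hl _ hpA _ (hEI M))
  have hpd : p * d * p = cf d • p := by
    rw [mul_assoc, hL, mul_smul_comm, PP_idem]
  have h3 : ‖k - (α : ℂ) • p‖ < α / 2 := by
    have e1 : k - (α : ℂ) • p = p * (EE M h - d) * p + (cf d - (α : ℂ)) • p := by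
      rw [mul_sub, sub_mul, hpd, sub_smul, hk]
      abel
    rw [e1]
    have e2 : ‖p * (EE M h - d) * p‖ ≤ ‖EE M h - d‖ := by
      calc ‖p * (EE M h - d) * p‖ ≤ ‖p * (EE M h - d)‖ * ‖p‖ := norm_mul_le _ _
        _ ≤ (‖p‖ * ‖EE M h - d‖) * ‖p‖ := mul_le_mul_of_nonneg_right (norm_mul_le _ _) (norm_nonneg _)
        _ ≤ (1 * ‖EE M h - d‖) * 1 := by
          refine mul_le_mul (mul_le_mul_of_nonneg_right (norm_PP_le _) (norm_nonneg _))
            (norm_PP_le _) (norm_nonneg _) (by positivity)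
        _ = _ := by ring
    have e3 : ‖(cf d - (α : ℂ)) • p‖ ≤ ‖cf d - (α : ℂ)‖ := by
      rw [norm_smul]
      exact mul_le_of_le_one_right (norm_nonneg _) (norm_PP_le _)
    refine (norm_add_le _ _).trans_lt ?_
    linarith
  set r := p - ((α : ℂ)⁻¹) • k with hr'
  have hαC : (α : ℂ) ≠ 0 := by exact_mod_cast hα0.ne'
  have hr1 : ‖r‖ ≤ 1 / 2 := by
    have e1 : r = (-(α : ℂ)⁻¹) • (k - (α : ℂ) • p) := by
      rw [smul_sub, smul_smul, neg_mul, inv_mul_cancel₀ hαC, hr', neg_smul, neg_smul, one_smul]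
      abel
    rw [e1, norm_smul, norm_neg, norm_inv, Complex.norm_real, Real.norm_of_nonneg hα0.le]
    rw [inv_mul_le_iff₀ hα0]
    linarith
  have hpk : p * k = k := by
    rw [hk, ← mul_assoc, ← mul_assoc, PP_idem]
  have hkp : k * p = k := by
    rw [hk, mul_assoc, PP_idem]
  have hpr : p * r = r := by rw [hr', mul_sub, PP_idem, mul_smul_comm, hpk]
  have hrp : r * p = r := by rw [hr', sub_mul, PP_idem, smul_mul_assoc, hkp]
  have hrA : r ∈ AA := AA.sub_mem hpA (AA.smul_mem (hI k hkI) _)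
  -- `p - r^(2^n) ∈ I`
  have key : ∀ n : ℕ, p - r ^ (2 ^ n) ∈ I ∧ p * r ^ (2 ^ n) = r ^ (2 ^ n) ∧
      r ^ (2 ^ n) * p = r ^ (2 ^ n) := by
    intro n
    induction n with
    | zero =>
      refine ⟨?_, ?_, ?_⟩
      · rw [pow_zero, pow_one, hr', sub_sub_cancel]
        exact I.smul_mem _ hkI
      · rw [pow_zero, pow_one, hpr]
      · rw [pow_zero, pow_one, hrp]
    | succ n ih =>
      obtain ⟨i1, i2, i3⟩ := ih
      have e1 : r ^ (2 ^ (n + 1)) = r ^ (2 ^ n) * r ^ (2 ^ n) := by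
        rw [← pow_add, pow_succ]
        ring_nf
      refine ⟨?_, ?_, ?_⟩
      · have e2 : p - r ^ (2 ^ (n + 1)) = (p - r ^ (2 ^ n)) * (p + r ^ (2 ^ n)) := by
          rw [e1, sub_mul, mul_add, mul_add, PP_idem, i2, i3]
          abel
        rw [e2]
        exact hr _ (AA.add_mem hpA (AA.pow_mem hrA _)) _ i1
      · rw [e1, ← mul_assoc, i2]
      · rw [e1, mul_assoc, i3]
  have hlim : Tendsto (fun n : ℕ => p - r ^ (2 ^ n)) atTop (𝓝 (p - 0)) := by
    refine Tendsto.const_sub _ ?_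
    have hr2 : ‖r‖ < 1 := by linarith
    exact (tendsto_pow_atTop_nhds_zero_of_norm_lt_one hr2).comp
      (tendsto_pow_atTop_atTop_of_one_lt (by norm_num))
  rw [sub_zero] at hlim
  exact hc.mem_of_tendsto hlim (Eventually.of_forall fun n => (key n).1)

/-- `AA` is simple. -/
theorem AA_simple (I : Submodule ℂ AA) (hc : IsClosed (I : Set AA))
    (hI : ∀ a : AA, ∀ x ∈ I, a * x ∈ I ∧ x * a ∈ I) : I = ⊥ ∨ I = ⊤ := by
  by_cases h0 : I = ⊥
  · exact Or.inl h0
  right
  let ι : AA →ₗ[ℂ] (H →L[ℂ] H) := AA.subtype.toLinearMap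
  have hAc : IsClosed (AA : Set (H →L[ℂ] H)) := inferInstance
  have h1 : (1 : H →L[ℂ] H) ∈ I.map ι := by
    refine ideal_one (I.map ι) ?_ ?_ ?_ ?_ ?_
    · rintro _ ⟨x, _, rfl⟩
      exact x.2
    · have e : ((I.map ι : Submodule ℂ (H →L[ℂ] H)) : Set (H →L[ℂ] H)) = Subtype.val '' (I : Set AA) := by
        ext x
        constructor
        · rintro ⟨y, hy, rfl⟩
          exact ⟨y, hy, rfl⟩
        · rintro ⟨y, hy, rfl⟩
          exact ⟨y, hy, rfl⟩
      rw [e]
      exact hAc.isClosedEmbedding_subtypeVal.isClosedMap _ hc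
    · rintro a ha _ ⟨x, hx, rfl⟩
      exact ⟨⟨a, ha⟩ * x, (hI ⟨a, ha⟩ x hx).1, rfl⟩
    · rintro a ha _ ⟨x, hx, rfl⟩
      exact ⟨x * ⟨a, ha⟩, (hI ⟨a, ha⟩ x hx).2, rfl⟩
    · obtain ⟨x, hx, hx0⟩ := (Submodule.ne_bot_iff I).1 h0
      exact ⟨ι x, ⟨x, hx, rfl⟩, fun h => hx0 (Subtype.ext h)⟩
  obtain ⟨u, hu, hu1⟩ := h1
  have hu2 : u = 1 := Subtype.ext hu1
  rw [eq_top_iff]
  intro x _
  have := (hI x u hu).1
  rwa [hu2, mul_one] at this

end Pool.Agent.R296.Weyl
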