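import Pool.Agent.R296.WeylSimple2
import Pool.Agent.R296.PosFun

/-!
Two pure states of the C*-algebra `AA`.
-/

set_option autoImplicit false

noncomputable section

namespace Pool.Agent.R296.Weyl

open scoped ENNReal
open Filter Topology PSE

/-- `op x f` as an element of `AA` -/
def oA (x : Γ) (f : W) : AA := ⟨op x f, op_mem_AA x f⟩

theorem oA_mul (x : Γ) (f : W) (z : Γ) (g : W) :
    oA x f * oA z g = sg (g x) • oA (x + z) (f + g) := Subtype.ext (op_mul x f z g)

theorem oA_zero : oA 0 0 = 1 := Subtype.ext op_zero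

theorem star_oA_left (x : Γ) : star (oA x 0) = oA x 0 := Subtype.ext (star_op_zero' x)

theorem star_oA_right (f : W) : star (oA 0 f) = oA 0 f := Subtype.ext (star_op_zero f)

theorem oA_sq_left (x : Γ) : oA x 0 * oA x 0 = 1 := Subtype.ext (op_x_sq x)

theorem oA_sq_right (f : W) : oA 0 f * oA 0 f = 1 := Subtype.ext (op_zero_sq f)

theorem oA_eq (x : Γ) (f : W) : oA x f = oA 0 f * oA x 0 := by
  rw [oA_mul, map_zero, sg_zero, one_smul, zero_add, add_zero]

theorem oA_eq' (x : Γ) (f : W) : oA x f = sg (f x) • (oA x 0 * oA 0 f) := by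
  rw [oA_mul, smul_smul, sg_mul_self, one_smul, add_zero, zero_add]

theorem fun_ext {ρ σ : AA →L[ℂ] ℂ} (h : ∀ x f, ρ (oA x f) = σ (oA x f)) : ρ = σ := by
  have hmem : ∀ b ∈ A0, b ∈ AA := fun b hb => A1.le_topologicalClosure hb
  have h1 : ∀ (b : H →L[ℂ] H) (hb : b ∈ A0), ρ ⟨b, hmem b hb⟩ = σ ⟨b, hmem b hb⟩ := by
    intro b hb
    refine Submodule.span_induction
      (p := fun b hb => ρ ⟨b, hmem b hb⟩ = σ ⟨b, hmem b hb⟩) ?_ ?_ ?_ ?_ hb
    · rintro _ ⟨⟨x, f⟩, rfl⟩
      exact h x f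
    · exact (map_zero ρ).trans (map_zero σ).symm
    · intro a b ha hb iha ihb
      have e : (⟨a + b, hmem _ (A0.add_mem ha hb)⟩ : AA) = ⟨a, hmem a ha⟩ + ⟨b, hmem b hb⟩ := rfl
      rw [e, map_add, map_add, iha, ihb]
    · intro c a ha iha
      have e : (⟨c • a, hmem _ (A0.smul_mem c ha)⟩ : AA) = c • ⟨a, hmem a ha⟩ := rfl
      rw [e, map_smul, map_smul, iha]
  ext a
  by_contra hne
  have h2 : 0 < ‖ρ a - σ a‖ := norm_pos_iff.2 (sub_ne_zero.2 hne)
  have h3 : (a : H →L[ℂ] H) ∈ closure (A0 : Set (H →L[ℂ] H)) := (mem_AA_iff _).1 a.2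
  obtain ⟨b, hb, hbd⟩ := Metric.mem_closure_iff.1 h3 (‖ρ a - σ a‖ / (‖ρ - σ‖ + 1)) (by positivity)
  have h4 : ρ a - σ a = (ρ - σ) (a - ⟨b, hmem b hb⟩) := by
    change _ = ρ (a - ⟨b, hmem b hb⟩) - σ (a - ⟨b, hmem b hb⟩)
    rw [map_sub, map_sub, h1 b hb]
    ring
  have h5 : ‖a - ⟨b, hmem b hb⟩‖ < ‖ρ a - σ a‖ / (‖ρ - σ‖ + 1) := by
    rw [dist_eq_norm] at hbd
    exact hbd
  have h6 : ‖ρ a - σ a‖ ≤ ‖ρ - σ‖ * ‖a - ⟨b, hmem b hb⟩‖ := by
    conv_lhs => rw [h4]
    exact (ρ - σ).le_opNorm _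
  rw [lt_div_iff₀ (by positivity)] at h5
  nlinarith [norm_nonneg (ρ - σ), norm_nonneg (a - ⟨b, hmem b hb⟩)]

theorem unit_fix {ρ : AA →L[ℂ] ℂ} (hρ : IsPositive ρ) (h1 : ρ 1 = 1) {u : AA} (hs : star u = u)
    (hu : u * u = 1) (hρu : ρ u = 1) (a : AA) : ρ (u * a) = ρ a ∧ ρ (a * u) = ρ a := by
  have hsv : star (1 - u) = 1 - u := by rw [star_sub, star_one, hs]
  have h2 : ρ ((1 - u) * star (1 - u)) = 0 := by
    have e : (1 - u) * star (1 - u) = 1 - u - u + 1 := by
      rw [hsv, sub_mul, mul_sub, mul_one, one_mul, mul_sub, mul_one, hu]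
      abel
    rw [e, map_add, map_sub, map_sub, h1, hρu]
    norm_num
  have h3 := hρ.cs_zero h2
  constructor
  · have h4 := h3 a
    rw [sub_mul, one_mul, map_sub, sub_eq_zero] at h4
    exact h4.symm
  · have h4 := hρ.star_mul (1 - u) (star a)
    rw [h3 (star a), map_zero, star_star, hsv, mul_sub, mul_one, map_sub, sub_eq_zero] at h4
    exact h4.symm

/-- Value of the state with `ρ(op 0 f) = 1` for all characters `f`. -/
theorem psi_val {ρ : AA →L[ℂ] ℂ} (hρ : IsPositive ρ) (h : ∀ f, ρ (oA 0 f) = 1) (x : Γ) (f : W) :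
    ρ (oA x f) = if x = 0 then 1 else 0 := by
  have h1 : ρ 1 = 1 := by rw [← oA_zero]; exact h 0
  by_cases hx : x = 0
  · rw [if_pos hx, hx]
    exact h f
  · rw [if_neg hx]
    have h2 : ρ (oA x f) = ρ (oA x 0) := by
      rw [oA_eq]
      exact (unit_fix hρ h1 (star_oA_right f) (oA_sq_right f) (h f) _).1
    rw [h2]
    obtain ⟨g, hg⟩ := exists_form hx
    have h3 := (unit_fix hρ h1 (star_oA_right g) (oA_sq_right g) (h g) (oA x 0)).1
    have h4 := (unit_fix hρ h1 (star_oA_right g) (oA_sq_right g) (h g) (oA x 0)).2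
    rw [← oA_eq, oA_eq', hg, sg_one, map_smul, h4, smul_eq_mul] at h3
    have h5 : (2 : ℂ) * ρ (oA x 0) = 0 := by linear_combination -h3
    simpa using h5

open Classical in
/-- Value of the state with `ρ(op x 0) = 1` for all translations `x`. -/
theorem phi_val {ρ : AA →L[ℂ] ℂ} (hρ : IsPositive ρ) (h1 : ρ 1 = 1)
    (h : ∀ n : ℕ, ρ (oA (Finsupp.single n 1) 0) = 1) (x : Γ) (f : W) :
    ρ (oA x f) = if f = 0 then 1 else 0 := by
  have hx : ∀ x : Γ, ρ (oA x 0) = 1 := by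
    intro x
    induction x using Finsupp.induction_linear with
    | zero => rw [oA_zero, h1]
    | add x y hx hy =>
      have e : oA (x + y) 0 = oA x 0 * oA y 0 := by
        rw [oA_mul, LinearMap.zero_apply, sg_zero, one_smul, add_zero]
      rw [e, (unit_fix hρ h1 (star_oA_left x) (oA_sq_left x) hx _).1, hy]
    | single n c =>
      have h2 : ∀ a : ZMod 2, a = 0 ∨ a = 1 := by decide
      rcases h2 c with rfl | rfl
      · rw [Finsupp.single_zero, oA_zero, h1]
      · exact h n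
  have h2 : ρ (oA x f) = ρ (oA 0 f) := by
    rw [oA_eq]
    exact (unit_fix hρ h1 (star_oA_left x) (oA_sq_left x) (hx x) _).2
  by_cases hf : f = 0
  · rw [if_pos hf, hf]
    exact hx x
  · rw [if_neg hf, h2]
    obtain ⟨z, hz⟩ : ∃ z, f z ≠ 0 := by
      by_contra hcon
      push Not at hcon
      exact hf (LinearMap.ext hcon)
    have h3 : ∀ a : ZMod 2, a ≠ 0 → a = 1 := by decide
    have hz1 := h3 _ hz
    have h4 := (unit_fix hρ h1 (star_oA_left z) (oA_sq_left z) (hx z) (oA 0 f)).1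
    have h5 := (unit_fix hρ h1 (star_oA_left z) (oA_sq_left z) (hx z) (oA 0 f)).2
    have h6 : oA 0 f * oA z 0 = (-1 : ℂ) • (oA z 0 * oA 0 f) := by
      rw [← oA_eq, oA_eq', hz1, sg_one]
    rw [h6, map_smul, h4, smul_eq_mul] at h5
    have h7 : (2 : ℂ) * ρ (oA 0 f) = 0 := by linear_combination -h5
    simpa using h7

/-- the vector functional of `w` -/
def vf (w : H) : AA →L[ℂ] ℂ :=
  LinearMap.mkContinuous
    { toFun := fun a => inner ℂ w ((a : H →L[ℂ] H) w)
      map_add' := fun a b => by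
        change inner ℂ w ((a : H →L[ℂ] H) w + (b : H →L[ℂ] H) w) = _
        rw [inner_add_right]
      map_smul' := fun c a => by
        change inner ℂ w (c • (a : H →L[ℂ] H) w) = _
        rw [inner_smul_right, smul_eq_mul, RingHom.id_apply] }
    (‖w‖ * ‖w‖) (fun a => by
      change ‖inner ℂ w ((a : H →L[ℂ] H) w)‖ ≤ ‖w‖ * ‖w‖ * ‖(a : H →L[ℂ] H)‖
      refine (norm_inner_le_norm _ _).trans ?_
      have := (a : H →L[ℂ] H).le_opNorm w
      nlinarith [norm_nonneg w])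

theorem vf_apply (w : H) (a : AA) : vf w a = inner ℂ w ((a : H →L[ℂ] H) w) := rfl

theorem vf_norm_le (w : H) (hw : ‖w‖ = 1) : ‖vf w‖ ≤ 1 := by
  refine ContinuousLinearMap.opNorm_le_bound _ zero_le_one fun a => ?_
  rw [vf_apply]
  change _ ≤ 1 * ‖(a : H →L[ℂ] H)‖
  refine (norm_inner_le_norm _ _).trans ?_
  have := (a : H →L[ℂ] H).le_opNorm w
  rw [hw, mul_one] at this
  rw [hw, one_mul, one_mul]
  exact this

theorem vf_pos (w : H) : IsPositive (vf w) := by
  intro a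
  have e : vf w (star a * a) = ((‖(a : H →L[ℂ] H) w‖ ^ 2 : ℝ) : ℂ) := by
    rw [vf_apply]
    change inner ℂ w ((star (a : H →L[ℂ] H) * (a : H →L[ℂ] H)) w) = _
    rw [ContinuousLinearMap.star_eq_adjoint, ContinuousLinearMap.mul_apply,
      ContinuousLinearMap.adjoint_inner_right, inner_self_eq_norm_sq_to_K]
    norm_cast
  rw [e]
  exact ⟨by rw [Complex.ofReal_re]; positivity, Complex.ofReal_im _⟩

instance : Nontrivial H := ⟨⟨dl 0, 0, fun h => by
  have h1 := norm_dl 0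
  rw [h, norm_zero] at h1
  norm_num at h1⟩⟩

theorem norm_one_AA : ‖(1 : AA)‖ = 1 := by
  change ‖(1 : H →L[ℂ] H)‖ = 1
  exact norm_one

/-- a positive functional with `‖ρ‖ ≤ 1`, `ρ 1 = 1` is a state -/
theorem isState_of {ρ : AA →L[ℂ] ℂ} (hρ : IsPositive ρ) (hn : ‖ρ‖ ≤ 1) (h1 : ρ 1 = 1) :
    IsState ρ := by
  refine ⟨hρ, le_antisymm hn ?_⟩
  have h2 := ρ.le_opNorm 1
  rwa [h1, norm_one_AA, mul_one, norm_one] at h2

/-- the state `⟨δ₀, · δ₀⟩` -/
def psi : AA →L[ℂ] ℂ := vf (dl 0)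

theorem psi_one : psi 1 = 1 := by
  rw [psi, vf_apply]
  change inner ℂ (dl 0) (dl 0) = (1 : ℂ)
  rw [inner_self_eq_norm_sq_to_K, norm_dl]
  norm_num

theorem psi_state : IsState psi := isState_of (vf_pos _) (vf_norm_le _ (norm_dl 0)) psi_one

theorem psi_oA (f : W) : psi (oA 0 f) = 1 := by
  rw [psi, vf_apply]
  change inner ℂ (dl 0) (op 0 f (dl 0)) = (1 : ℂ)
  rw [op_zero_dl_zero, inner_self_eq_norm_sq_to_K, norm_dl]
  norm_num

theorem psi_unique {ρ : AA →L[ℂ] ℂ} (hρ : IsPositive ρ) (h : ∀ f, ρ (oA 0 f) = 1) : ρ = psi :=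
  fun_ext fun x f => by rw [psi_val hρ h, psi_val psi_state.1 psi_oA]

/-- vectors fixed by more and more translations -/
def vN : ℕ → H
  | 0 => dl 0
  | n + 1 => vN n + op (Finsupp.single n 1) 0 (vN n)

theorem vN_nonneg (n : ℕ) : (∀ y, 0 ≤ (vN n y).re) ∧ 1 ≤ (vN n 0).re := by
  induction n with
  | zero =>
    constructor
    · intro y
      rw [vN, dl_apply]
      split_ifs <;> simp
    · rw [vN, dl_apply]
      simp
  | succ n ih =>
    have e : ∀ y, vN (n + 1) y = vN n y + vN n (y + Finsupp.single n 1) := by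
      intro y
      change vN n y + sg ((0 : W) y) * vN n (y + Finsupp.single n 1) = _
      rw [LinearMap.zero_apply, sg_zero, one_mul]
    constructor
    · intro y
      rw [e, Complex.add_re]
      exact add_nonneg (ih.1 _) (ih.1 _)
    · rw [e, Complex.add_re]
      linarith [ih.2, ih.1 (0 + Finsupp.single n 1)]

theorem vN_ne (n : ℕ) : vN n ≠ 0 := by
  intro h
  have h1 := (vN_nonneg n).2
  rw [h] at h1
  simp at h1
  linarith

theorem vN_fix (n m : ℕ) (h : m < n) : op (Finsupp.single m 1) 0 (vN n) = vN n := by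
  induction n with
  | zero => omega
  | succ n ih =>
    rw [vN, map_add]
    rcases Nat.lt_succ_iff_lt_or_eq.1 h with h | rfl
    · have h2 : op (Finsupp.single m 1) 0 (op (Finsupp.single n 1) 0 (vN n))
          = op (Finsupp.single n 1) 0 (op (Finsupp.single m 1) 0 (vN n)) := by
        have h3 : op (Finsupp.single m 1) 0 * op (Finsupp.single n 1) 0
            = op (Finsupp.single n 1) 0 * op (Finsupp.single m 1) 0 := by
          rw [op_mul, op_mul, add_comm (Finsupp.single m 1 : Γ), LinearMap.zero_apply,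
            LinearMap.zero_apply]
        exact congrArg (fun T : H →L[ℂ] H => T (vN n)) h3
      rw [h2, ih h]
    · have h2 : op (Finsupp.single m 1) 0 (op (Finsupp.single m 1) 0 (vN m)) = vN m := by
        exact congrArg (fun T : H →L[ℂ] H => T (vN m)) (op_x_sq (Finsupp.single m 1))
      rw [h2, add_comm]

theorem exists_phi : ∃ φ : AA →L[ℂ] ℂ, IsState φ ∧
    ∀ n : ℕ, φ (oA (Finsupp.single n 1) 0) = 1 := by
  let w : ℕ → H := fun n => ((‖vN n‖⁻¹ : ℝ) : ℂ) • vN n
  have hw : ∀ n, ‖w n‖ = 1 := by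
    intro n
    have h1 := norm_pos_iff.2 (vN_ne n)
    change ‖((‖vN n‖⁻¹ : ℝ) : ℂ) • vN n‖ = 1
    rw [norm_smul, Complex.norm_real, Real.norm_of_nonneg (by positivity),
      inv_mul_cancel₀ h1.ne']
  obtain ⟨φ, h1, h2, h3⟩ := exists_limit (fun n => vf (w n)) (fun n => vf_pos _)
    (fun n => vf_norm_le _ (hw n))
  have e1 : ∀ n, inner ℂ (w n) (w n) = (1 : ℂ) := by
    intro n
    rw [inner_self_eq_norm_sq_to_K, hw n]
    norm_num
  refine ⟨φ, isState_of h1 h2 (h3 1 1 (Eventually.of_forall fun n => ?_)), fun m =>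
    h3 _ 1 ?_⟩
  · exact e1 n
  · filter_upwards [eventually_gt_atTop m] with n hn
    rw [vf_apply]
    change inner ℂ (w n) (op (Finsupp.single m 1) 0 (w n)) = (1 : ℂ)
    have e2 : op (Finsupp.single m 1) 0 (w n) = w n := by
      change op (Finsupp.single m 1) 0 (((‖vN n‖⁻¹ : ℝ) : ℂ) • vN n) = _
      rw [map_smul, vN_fix n m hn]
    rw [e2, e1]

/-- the state with value `1` at all translations -/
def phi : AA →L[ℂ] ℂ := exists_phi.choose

theorem phi_state : IsState phi := exists_phi.choose_spec.1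

theorem phi_oA (n : ℕ) : phi (oA (Finsupp.single n 1) 0) = 1 := exists_phi.choose_spec.2 n

theorem phi_one : phi 1 = 1 := by
  have h3 := phi_state.1 (1 : AA)
  rw [star_one, one_mul] at h3
  have h4 : ‖phi 1‖ ≤ 1 := by
    have := phi.le_opNorm 1
    rwa [phi_state.2, norm_one_AA, mul_one] at this
  have h5 := phi_state.1 (1 - oA (Finsupp.single 0 1) 0)
  have e : star (1 - oA (Finsupp.single 0 1) 0) * (1 - oA (Finsupp.single 0 1) 0)
      = 1 - oA (Finsupp.single 0 1) 0 - oA (Finsupp.single 0 1) 0 + 1 := by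
    rw [star_sub, star_one, star_oA_left, sub_mul, mul_sub, mul_one, one_mul, mul_sub, mul_one,
      oA_sq_left]
    abel
  rw [e, map_add, map_sub, map_sub, phi_oA] at h5
  have h6 : (phi 1).re ≤ 1 := (Complex.re_le_norm _).trans h4
  have h7 := h5.1
  simp at h7
  apply Complex.ext
  · simp
    linarith
  · simp
    exact h3.2

theorem phi_unique {ρ : AA →L[ℂ] ℂ} (hρ : IsPositive ρ) (h1 : ρ 1 = 1)
    (h : ∀ n : ℕ, ρ (oA (Finsupp.single n 1) 0) = 1) : ρ = phi :=
  fun_ext fun x f => by rw [phi_val hρ h1 h, phi_val phi_state.1 phi_one phi_oA]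

end Pool.Agent.R296.Weyl
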